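import Pool.Agent.MP_47bb2a_mp.H97.Normal

/-! Multiplicativity of the maximum over product vectors when one factor is a qubit. -/

open scoped ComplexOrder MatrixOrder ComplexConjugate
open Matrix

namespace Pool.Agent.MP_47bb2a_mp.H97

variable {ι B A' B' : Type*} [Fintype ι] [Fintype B] [Fintype A'] [Fintype B']

theorem dot_ct (M : Matrix ι B ℂ) (x : ι → ℂ) (y : B → ℂ) :
    star y ⬝ᵥ Mᴴ *ᵥ x = conj (star x ⬝ᵥ M *ᵥ y) := by
  rw [← RCLike.star_def, ← star_dotProduct_star, star_star, star_mulVec, dotProduct_mulVec]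

theorem dot_conj (E : Matrix ι A' ℂ) (M : Matrix ι B ℂ) (E' : Matrix B B' ℂ) (x : A' → ℂ)
    (y : B' → ℂ) : star x ⬝ᵥ (Eᴴ * M * E') *ᵥ y = star (E *ᵥ x) ⬝ᵥ M *ᵥ (E' *ᵥ y) := by
  rw [← mulVec_mulVec, ← mulVec_mulVec, dotProduct_mulVec, ← star_mulVec]

theorem two_re_le {M : Matrix ι ι ℂ} (hM : M.PosSemidef) (x y : ι → ℂ) :
    2 * (star x ⬝ᵥ M *ᵥ y).re ≤ q M x + q M y := by
  have h1 := q_nonneg hM (x - y)
  have h2 := congrArg Complex.re (dot_ct M x y)
  rw [hM.1.eq, Complex.conj_re] at h2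
  simp only [q, star_sub, mulVec_sub, sub_dotProduct, dotProduct_sub, Complex.sub_re] at h1 ⊢
  linarith

theorem exists_unit (a : ι → ℂ) :
    ∃ (s : ℝ) (u : ι → ℂ), 0 ≤ s ∧ nsq u ≤ 1 ∧ a = (s : ℂ) • u ∧ s ^ 2 = nsq a := by
  have h := Real.sq_sqrt (nsq_nonneg a)
  rcases (Real.sqrt_nonneg (nsq a)).eq_or_lt with h0 | h0
  · refine ⟨0, 0, le_rfl, by simp [nsq], ?_, by rw [← h, ← h0]⟩
    rw [← h0, nsq, eq_comm, zero_pow two_ne_zero,
      Finset.sum_eq_zero_iff_of_nonneg fun _ _ => sq_nonneg _] at h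
    ext i
    simpa using h i (Finset.mem_univ i)
  · refine ⟨√(nsq a), ((√(nsq a))⁻¹ : ℝ) • a, h0.le, le_of_eq ?_, ?_, h⟩
    · have : nsq (((√(nsq a))⁻¹ : ℝ) • a) = (√(nsq a))⁻¹ ^ 2 * nsq a := by
        simp only [nsq, Pi.smul_apply, norm_smul, mul_pow, Finset.mul_sum, Real.norm_eq_abs, sq_abs]
      rw [this, inv_pow, h, inv_mul_cancel₀ (by rw [← h]; positivity)]
    · rw [Complex.coe_smul, smul_inv_smul₀ h0.ne']

theorem step {H : Matrix (Fin 2 × B) (Fin 2 × B) ℂ} (hH : H.PosSemidef)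
    (hH' : ∀ x y, q H (fun p => x p.1 * y p.2) ≤ nsq x * nsq y) {M : Matrix ι ι ℂ}
    (hM : M.PosSemidef) (f : ι → A') (g : ι → B')
    (hM' : ∀ a b, q M (fun z => a (f z) * b (g z)) ≤ nsq a * nsq b) (a : Fin 2 → A' → ℂ)
    (b : Matrix B' B ℂ) (F : Matrix ι (Fin 2 × B) ℂ)
    (hF : ∀ z p, F z p = a p.1 (f z) * b (g z) p.2) :
    (H * (Fᴴ * M * F)).trace.re ≤ (nsq (a 0) + nsq (a 1)) * (b * bᴴ).trace.re := by
  classical
  choose s u s0 u1 ha hs using fun i => exists_unit (a i)
  let E : Fin 2 → Matrix ι B' ℂ := fun i => of fun z k => if g z = k then u i (f z) else 0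
  have hE : ∀ i y, E i *ᵥ y = fun z => u i (f z) * y (g z) := fun i y => by
    ext z
    simp [E, mulVec, dotProduct]
  have hE' : ∀ i y, q M (E i *ᵥ y) ≤ nsq y := fun i y => by
    rw [hE]
    exact (hM' _ _).trans (mul_le_of_le_one_left (nsq_nonneg _) (u1 i))
  let V : Fin 2 → Fin 2 → Matrix B' B' ℂ := fun i j => (E i)ᴴ * M * E j
  let K : Fin 2 → Fin 2 → Matrix B B ℂ := fun i j => H.submatrix (Prod.mk i) (Prod.mk j)
  let Y : Fin 2 → Fin 2 → Matrix B' B' ℂ := fun i j => b * K i j * bᴴ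
  have e1 : (H * (Fᴴ * M * F)).trace = ∑ i, ∑ j, (s i * s j : ℝ) * (V j i * Y i j).trace := by
    have h1 : ∀ i j, (V j i * Y i j).trace = (K i j * ((E j * b)ᴴ * M * (E i * b))).trace :=
      fun i j => by
        simp only [V, Y, conjTranspose_mul, ← Matrix.mul_assoc]
        rw [trace_mul_cycle]
        simp only [← Matrix.mul_assoc]
        rw [trace_mul_comm]
        simp only [← Matrix.mul_assoc]
    have h2 : ∀ i z k, F z (i, k) = s i * (E i * b) z k := fun i z k => by
      simp [hF, ha i, E, mul_apply, mul_assoc]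
    have h3 : ∀ i j k l, (Fᴴ * M * F) (j, l) (i, k) =
        (s i * s j : ℝ) * ((E j * b)ᴴ * M * (E i * b)) l k := fun i j k l => by
      have h4 := h2 i
      have h5 := h2 j
      generalize E j * b = Ej at h5
      generalize E i * b = Ei at h4
      simp only [mul_apply, conjTranspose_apply, h4, h5,
        Finset.mul_sum, Finset.sum_mul, star_mul', RCLike.star_def, Complex.conj_ofReal]
      refine Finset.sum_congr rfl fun _ _ => Finset.sum_congr rfl fun _ _ => ?_
      push_cast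
      ring
    simp only [h1]
    simp only [trace, diag_apply, mul_apply (M := H), mul_apply (M := K _ _),
      Fintype.sum_prod_type, h3, Finset.mul_sum]
    refine Finset.sum_congr rfl fun i _ => Finset.sum_comm.trans
      (Finset.sum_congr rfl fun j _ => Finset.sum_congr rfl fun _ _ =>
        Finset.sum_congr rfl fun _ _ => ?_)
    simp only [K, submatrix_apply]
    ring
  have hK : ∀ i j, (K i j)ᴴ = K j i := fun i j => by
    simp only [K, conjTranspose_submatrix, hH.1.eq]
  have e2 : (V 1 0 * Y 0 1).trace.re = (V 0 1 * Y 1 0).trace.re := by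
    rw [← Complex.conj_re, ← RCLike.star_def, ← trace_conjTranspose, conjTranspose_mul,
      trace_mul_comm]
    simp only [V, Y, conjTranspose_mul, conjTranspose_conjTranspose, hM.1.eq, hK, Matrix.mul_assoc]
  have e3 : ∀ i, (V i i * Y i i).trace.re ≤ (Y i i).trace.re := fun i => by
    have := tr_nonneg' (M := 1 - V i i) ((hH.submatrix (Prod.mk i)).mul_mul_conjTranspose_same b)
      fun v => by
        rw [q_sub, q_one, q, dot_conj]
        exact sub_nonneg.2 (hE' i v)
    rw [Matrix.mul_sub, Matrix.mul_one, trace_sub, Complex.sub_re, sub_nonneg] at this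
    rwa [trace_mul_comm]
  have e4 := tr_contr (V := V 0 1) (X := (2 * (s 0 * s 1)) • Y 1 0)
    (S := (s 0 ^ 2 + s 1 ^ 2) • (b * bᴴ) - s 0 ^ 2 • Y 0 0 - s 1 ^ 2 • Y 1 1)
    (fun x y => by
      rw [dot_conj]
      exact (two_re_le hM _ _).trans (add_le_add (hE' 0 x) (hE' 1 y))) fun z hz v => by
      have h1 := hH' ![s 0 * z, s 1] (bᴴ *ᵥ v)
      have h2 : ∀ i j, star v ⬝ᵥ Y i j *ᵥ v = star (bᴴ *ᵥ v) ⬝ᵥ K i j *ᵥ (bᴴ *ᵥ v) :=
        fun i j => by rw [← dot_conj, conjTranspose_conjTranspose]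
      have h3 : ∀ x : Fin 2 → ℂ, ∀ y, q H (fun p => x p.1 * y p.2) =
          (∑ i, ∑ j, conj (x i) * x j * (star y ⬝ᵥ K i j *ᵥ y)).re := fun x y => by
        simp only [q, dotProduct, mulVec, Fintype.sum_prod_type, Finset.mul_sum, K,
          submatrix_apply, Pi.star_apply, star_mul', RCLike.star_def]
        congr 1
        refine Finset.sum_congr rfl fun i _ => Finset.sum_comm.trans
          (Finset.sum_congr rfl fun j _ => Finset.sum_congr rfl fun _ _ =>
            Finset.sum_congr rfl fun _ _ => ?_)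
        ring
      have h4 := dot_ct (K 1 0) (bᴴ *ᵥ v) (bᴴ *ᵥ v)
      have h5 := q_ct_mul bᴴ v
      have h6 : z.re ^ 2 + z.im ^ 2 = 1 := by
        rw [← one_pow 2, ← hz, Complex.sq_norm, Complex.normSq_apply]; ring
      rw [conjTranspose_conjTranspose] at h5
      rw [hK, ← h2, ← h2] at h4
      rw [h3, ← h5] at h1
      simp only [Fin.sum_univ_two, ← h2, h4] at h1
      rw [q_sub, q_sub, q_rsmul, q_rsmul, q_rsmul]
      simp [nsq, hz] at h1
      simp only [q, smul_mulVec, dotProduct_smul, smul_eq_mul, Complex.real_smul] at h1 ⊢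
      simp only [Complex.mul_re, Complex.mul_im, Complex.ofReal_re, Complex.ofReal_im]
      have h7 := congrArg (· * (s 0 ^ 2 * (star v ⬝ᵥ Y 0 0 *ᵥ v).re)) h6
      linarith
  rw [e1, ← hs, ← hs]
  simp only [Fin.sum_univ_two, Complex.add_re, Complex.re_ofReal_mul, e2, Matrix.mul_smul,
    trace_smul, trace_sub, Complex.sub_re, Complex.smul_re, smul_eq_mul] at e4 ⊢
  nlinarith [mul_le_mul_of_nonneg_left (e3 0) (sq_nonneg (s 0)),
    mul_le_mul_of_nonneg_left (e3 1) (sq_nonneg (s 1))]

theorem q_transpose (M : Matrix ι ι ℂ) (v : ι → ℂ) : q Mᵀ v = q M (star v) := by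
  rw [q, q, star_star, mulVec_transpose, dotProduct_comm, ← dotProduct_mulVec]

theorem sum_cons {E : Type*} [AddCommMonoid E] {n : ℕ} (F : (Fin (n + 1) → ι) → E) :
    ∑ x, F x = ∑ p, ∑ z : Fin n → ι, F (Fin.cons p z) := by
  rw [← (Fin.consEquiv fun _ => ι).sum_comp, Fintype.sum_prod_type]
  rfl

theorem prod_tp {G : Matrix (Fin 2 × B) (Fin 2 × B) ℂ} (hG : G.PosSemidef)
    (hG' : ∀ x y, q G (fun p => x p.1 * y p.2) ≤ nsq x * nsq y) (n : ℕ) : ∀ a b,
    q (tp n G) (fun z => a (fun i => (z i).1) * b fun i => (z i).2) ≤ nsq a * nsq b := by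
  induction n with
  | zero =>
    intro a b
    classical
    have : tp 0 G = 1 := by
      ext x y
      rw [Subsingleton.elim x y]
      simp [tp]
    rw [this, q_one]
    simp only [nsq, Fintype.sum_unique, norm_mul, mul_pow]
    exact le_of_eq (by congr <;> exact Subsingleton.elim _ _)
  | succ n ih =>
    intro a b
    have h := step hG.transpose (fun x y => by
        rw [q_transpose]
        have := hG' (star x) (star y)
        simp only [nsq, Pi.star_apply, norm_star] at this ⊢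
        convert this using 2
        ext p
        simp) (tp_psd hG) _ _ ih (fun i x => a (Fin.cons i x)) (of fun y k => b (Fin.cons k y))
      (of fun z p => a (Fin.cons p.1 fun i => (z i).1) * b (Fin.cons p.2 fun i => (z i).2))
      fun _ _ => rfl
    have c1 : ∀ (p : Fin 2 × B) (z : Fin n → Fin 2 × B),
        (fun i => ((Fin.cons p z : Fin (n + 1) → Fin 2 × B) i).1) =
          Fin.cons p.1 fun i => (z i).1 := fun p z => funext fun i => by cases i using Fin.cases <;> rfl
    have c2 : ∀ (p : Fin 2 × B) (z : Fin n → Fin 2 × B),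
        (fun i => ((Fin.cons p z : Fin (n + 1) → Fin 2 × B) i).2) =
          Fin.cons p.2 fun i => (z i).2 := fun p z => funext fun i => by cases i using Fin.cases <;> rfl
    convert h using 2
    · simp only [q, dotProduct, mulVec, sum_cons (n := n), c1, c2, trace, diag_apply, mul_apply,
        tp, of_apply, Fin.prod_univ_succ, Fin.cons_zero, Fin.cons_succ, transpose_apply,
        conjTranspose_apply, Finset.mul_sum, Finset.sum_mul, Pi.star_apply]
      congr 1
      rw [Finset.sum_comm (s := Finset.univ (α := Fin 2 × B)) (t := Finset.univ (α := Fin 2 × B))]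
      refine Finset.sum_congr rfl fun p _ => Finset.sum_comm.trans
        (Finset.sum_congr rfl fun p' _ => Finset.sum_comm.trans
          (Finset.sum_congr rfl fun _ _ => Finset.sum_congr rfl fun _ _ => ?_))
      ring
    · simp only [nsq, sum_cons (n := n), Fin.sum_univ_two]
    · simp only [nsq, sum_cons (n := n), trace, diag_apply, mul_apply, conjTranspose_apply,
        of_apply, RCLike.star_def, Complex.mul_conj', Complex.re_sum]
      rw [Finset.sum_comm]
      norm_cast

theorem q_submatrix (M : Matrix ι ι ℂ) (e : B ≃ ι) (v : ι → ℂ) :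
    q (M.submatrix e e) (v ∘ e) = q M v := by
  rw [q, q, submatrix_mulVec_equiv, Function.comp_assoc, e.self_comp_symm, Function.comp_id]
  exact congrArg _ (comp_equiv_dotProduct_comp_equiv (star v) _ e)

theorem prod_tp' {G : Matrix (B × Fin 2) (B × Fin 2) ℂ} (hG : G.PosSemidef)
    (hG' : ∀ x y, q G (fun p => x p.1 * y p.2) ≤ nsq x * nsq y) (n : ℕ) (a : (Fin n → B) → ℂ)
    (b : (Fin n → Fin 2) → ℂ) :
    q (tp n G) (fun z => a (fun i => (z i).1) * b fun i => (z i).2) ≤ nsq a * nsq b := by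
  have h := prod_tp (hG.submatrix (Equiv.prodComm _ _)) (fun x y => by
    rw [mul_comm]
    refine le_of_eq_of_le ?_ (hG' y x)
    rw [← q_submatrix G (Equiv.prodComm _ _)]
    exact congrArg _ (funext fun _ => mul_comm _ _)) n b a
  rw [mul_comm, ← q_submatrix _ (Equiv.piCongrRight fun _ => Equiv.prodComm _ _)]
  refine le_of_eq_of_le ?_ h
  exact congrArg _ (funext fun _ => mul_comm _ _)

end Pool.Agent.MP_47bb2a_mp.H97
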