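import Pool.Agent.MP_47bb2a_mp.H97.Net
import Pool.Agent.MP_47bb2a_mp.H97.Qubit

/-! Separable states and the relative entropy weight. -/

open scoped ComplexOrder MatrixOrder ComplexConjugate Kronecker
open Matrix MeasureTheory Real

namespace Pool.Agent.MP_47bb2a_mp.H97

variable {ι A B : Type*} [Fintype ι] [Fintype A] [Fintype B] {n : ℕ}

theorem convex_psd : Convex ℝ {M : Matrix ι ι ℂ | M.PosSemidef} :=
  fun _ h _ h' _ _ a b _ => (psd_rsmul h a).add (psd_rsmul h' b)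

theorem convex_state : Convex ℝ {M : Matrix ι ι ℂ | IsState M} := fun _ h _ h' _ _ a b e =>
  ⟨convex_psd h.1 h'.1 a b e, by
    rw [trace_add, trace_smul, trace_smul, h.2, h'.2, ← add_smul, e, one_smul]⟩

theorem convex_tr (G : Matrix ι ι ℂ) : Convex ℝ {M : Matrix ι ι ℂ | (G * M).trace.re ≤ 1} :=
  fun M h M' h' a b a0 b0 e => by
    simp only [Set.mem_setOf_eq, Matrix.mul_add, Matrix.mul_smul, trace_add, trace_smul,
      Complex.add_re, Complex.smul_re, smul_eq_mul] at h h' ⊢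
    nlinarith

theorem cut_eq (α : Matrix (Fin n → A) (Fin n → A) ℂ) (β : Matrix (Fin n → B) (Fin n → B) ℂ) :
    cut α β = (α ⊗ₖ β).submatrix (Equiv.arrowProdEquivProdArrow _ _ _)
      (Equiv.arrowProdEquivProdArrow _ _ _) := rfl

theorem kron_state {α : Matrix A A ℂ} {β : Matrix B B ℂ} (h : IsState α) (h' : IsState β) :
    IsState (α ⊗ₖ β) := by
  classical
  exact ⟨h.1.kronecker h'.1, by rw [trace_kronecker, h.2, h'.2, one_mul]⟩

theorem sep_state {σ : Matrix (Fin n → A × B) (Fin n → A × B) ℂ} (h : σ ∈ Sep A B n) :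
    IsState σ := by
  refine convexHull_min ?_ convex_state h
  rintro _ ⟨α, β, h1, h2, rfl⟩
  rw [cut_eq]
  exact ⟨(kron_state h1 h2).1.submatrix _, 
    (Equiv.sum_comp _ (diag (α ⊗ₖ β))).trans (kron_state h1 h2).2⟩

theorem sep1_state {σ : Matrix (A × B) (A × B) ℂ} (h : σ ∈ Sep1 A B) : IsState σ := by
  refine convexHull_min ?_ convex_state h
  rintro _ ⟨α, β, h1, h2, rfl⟩
  exact kron_state h1 h2

theorem tp_sep {ω : Matrix (A × B) (A × B) ℂ} (h : ω ∈ Sep1 A B) : tp n ω ∈ Sep A B n := by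
  obtain ⟨κ, _, w, z, w0, w1, hz, rfl⟩ := mem_convexHull_iff_exists_fintype.1 h
  choose α β h1 h2 e using hz
  refine mem_convexHull_iff_exists_fintype.2 ⟨Fin n → κ, inferInstance, fun s => ∏ i, w (s i),
    fun s => cut (tpF fun i => α (s i)) (tpF fun i => β (s i)),
    fun s => Finset.prod_nonneg fun _ _ => w0 _, ?_, fun s => ⟨_, _, ⟨tpF_psd fun _ => (h1 _).1, ?_⟩,
      ⟨tpF_psd fun _ => (h2 _).1, ?_⟩, rfl⟩, ?_⟩
  · rw [← Fintype.prod_sum fun (_ : Fin n) k => w k]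
    simp [w1]
  · simp [tpF_trace, (h1 _).2]
  · simp [tpF_trace, (h2 _).2]
  · ext x y
    simp [tp, tpF, cut, Matrix.sum_apply, e, Fintype.prod_sum, Finset.prod_mul_distrib]

theorem sum_nsq (C : Matrix ι ι ℂ) (h : (Cᴴ * C).trace = 1) : ∑ k, nsq (star (C k)) = 1 := by
  rw [nsq_uncurry, Complex.ofReal_eq_one, nsq, Fintype.sum_prod_type] at h
  simpa [nsq] using h

theorem pure_state (v : ι → ℂ) (h : 0 < nsq v) : IsState ((nsq v)⁻¹ • vecMulVec v (star v)) :=
  ⟨psd_rsmul (posSemidef_vecMulVec_self_star v) (inv_pos.2 h).le, by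
    rw [trace_smul, trace_vecMulVec, dotProduct_comm, dot_self, Complex.real_smul,
      ← Complex.ofReal_mul, inv_mul_cancel₀ h.ne', Complex.ofReal_one]⟩

theorem nsq_zero (v : ι → ℂ) (h : 0 = nsq v) : v = 0 := by
  rwa [← dotProduct_star_self_eq_zero, dot_self, Complex.ofReal_eq_zero, eq_comm]

theorem sep_bound {M : Matrix (Fin n → A × B) (Fin n → A × B) ℂ}
    (hM : ∀ a b, q M (fun z => a (fun i => (z i).1) * b fun i => (z i).2) ≤ nsq a * nsq b)
    {σ : Matrix (Fin n → A × B) (Fin n → A × B) ℂ} (h : σ ∈ Sep A B n) :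
    (M * σ).trace.re ≤ 1 := by
  refine convexHull_min ?_ (convex_tr M) h
  rintro _ ⟨α, β, h1, h2, rfl⟩
  obtain ⟨C, rfl⟩ := exists_ct h1.1
  obtain ⟨D, rfl⟩ := exists_ct h2.1
  let ψ := fun k l (z : Fin n → A × B) => star (C k) (fun i => (z i).1) * star (D l) fun i => (z i).2
  have e : cut (Cᴴ * C) (Dᴴ * D) = ∑ k, ∑ l, vecMulVec (ψ k l) (star (ψ k l)) := by
    ext x y
    simp only [cut, of_apply, mul_apply, Finset.sum_mul_sum, Matrix.sum_apply, vecMulVec_apply, ψ,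
      Pi.star_apply, conjTranspose_apply, star_mul', star_star]
    exact Finset.sum_congr rfl fun _ _ => Finset.sum_congr rfl fun _ _ => by ring
  simp only [Set.mem_setOf_eq, e, Finset.mul_sum, trace_sum, Complex.re_sum, tr_vecMulVec]
  refine (Finset.sum_le_sum fun k _ => Finset.sum_le_sum fun l _ => hM _ _).trans ?_
  rw [← Finset.sum_mul_sum, sum_nsq C h1.2, sum_nsq D h2.2, one_mul]

variable [DecidableEq ι] [DecidableEq A] [DecidableEq B]

theorem one_state [Nonempty ι] : IsState ((Fintype.card ι : ℝ)⁻¹ • (1 : Matrix ι ι ℂ)) :=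
  ⟨psd_rsmul PosSemidef.one (by positivity), by simp⟩

theorem base_sep1 [Nonempty A] [Nonempty B] :
    Base (Sep1 A B) ((Fintype.card A : ℝ)⁻¹ * (Fintype.card B : ℝ)⁻¹) where
  convex := convex_convexHull _ _
  psd _ h := (sep1_state h).1
  tr _ h := by simp [(sep1_state h).2]
  pos := by have := @Fintype.card_pos A; have := @Fintype.card_pos B; positivity
  one := subset_convexHull _ _ ⟨_, _, one_state, one_state, by
    rw [smul_kronecker, kronecker_smul, one_kronecker_one, smul_smul]⟩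

omit [DecidableEq A] [DecidableEq B] in
theorem polar_prod {G : Matrix (A × B) (A × B) ℂ} (hG : Polar (Sep1 A B) G) (x : A → ℂ)
    (y : B → ℂ) : q G (fun p => x p.1 * y p.2) ≤ nsq x * nsq y := by
  rcases (nsq_nonneg x).eq_or_lt with hx | hx
  · obtain rfl := nsq_zero x hx
    simp [q, nsq, dotProduct]
  rcases (nsq_nonneg y).eq_or_lt with hy | hy
  · obtain rfl := nsq_zero y hy
    simp [q, nsq, dotProduct]
  have h := hG.2 _ (subset_convexHull _ _ ⟨_, _, pure_state x hx, pure_state y hy, rfl⟩)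
  have e : vecMulVec x (star x) ⊗ₖ vecMulVec y (star y) =
      vecMulVec (fun p : A × B => x p.1 * y p.2) (star fun p => x p.1 * y p.2) := by
    ext p p'
    simp only [kroneckerMap_apply, vecMulVec_apply, Pi.star_apply, star_mul']
    ring
  rw [smul_kronecker, kronecker_smul, e, smul_smul, Matrix.mul_smul, trace_smul, Complex.smul_re,
    tr_vecMulVec, smul_eq_mul, ← mul_inv, inv_mul_le_iff₀ (mul_pos hx hy)] at h
  simpa using h

theorem relEnt_self (ρ : Matrix ι ι ℂ) : relEnt ρ ρ = 0 := by simp [relEnt]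

theorem relEnt_ge {ρ τ : Matrix ι ι ℂ} (hρ : ρ.PosSemidef) (hτ : IsState τ) :
    ((-Fintype.card ι : ℝ) : EReal) ≤ relEnt ρ τ := by
  unfold relEnt
  split_ifs
  swap
  · exact le_top
  have h1 : τ ≤ 1 := (psd_of_q (isHermitian_one.sub hτ.1.1) fun v => by
    obtain ⟨C, rfl⟩ := exists_ct hτ.1
    rw [q_sub, q_one, q_ct_mul, sub_nonneg, ← one_mul (nsq v), ← sum_nsq C hτ.2, Finset.sum_mul]
    refine Finset.sum_le_sum fun k _ => ?_
    simpa [mulVec] using cs (star (C k)) v :)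
  have h2 : cfc Real.log τ ≤ 0 := cfc_nonpos _ _ fun x hx =>
    Real.log_nonpos (spectrum_nonneg_of_nonneg hτ.1.nonneg hx)
      ((CFC.le_one_iff τ hτ.1.1).1 h1 x hx)
  have h3 := tr_nonneg hρ (neg_nonneg.2 h2).posSemidef
  have h4 : ρ * cfc Real.log ρ = cfc (fun x => x * Real.log x) ρ := by
    rw [cfc_mul _ _ _ (ρ.finite_real_spectrum.continuousOn _) (ρ.finite_real_spectrum.continuousOn _),
      cfc_id' ℝ ρ hρ.1.isSelfAdjoint]
  have h5 : algebraMap ℝ _ (-1) ≤ cfc (fun x => x * Real.log x) ρ :=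
    algebraMap_le_cfc _ _ _ (fun x hx => by
      have := Real.negMulLog_le_one_sub_self (spectrum_nonneg_of_nonneg hρ.nonneg hx)
      have := spectrum_nonneg_of_nonneg hρ.nonneg hx
      simp only [Real.negMulLog] at *
      linarith) (ρ.finite_real_spectrum.continuousOn _) hρ.1
  have h6 := (Complex.nonneg_iff.1 (PosSemidef.trace_nonneg h5)).1
  rw [EReal.coe_le_coe_iff, Matrix.mul_sub, trace_sub, h4]
  simp [Algebra.algebraMap_eq_smul_one] at h3 h6 ⊢
  linarith

theorem dominated_sep [Nonempty A] [Nonempty B]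
    (h : ∀ G : Matrix (A × B) (A × B) ℂ, G.PosSemidef →
      (∀ x y, q G (fun p => x p.1 * y p.2) ≤ nsq x * nsq y) → ∀ n a b,
        q (tp n G) (fun z => a (fun i => (z i).1) * b fun i => (z i).2) ≤ nsq a * nsq b) :
    ∃ μ : Measure (States (A × B)), IsProbabilityMeasure μ ∧ (∀ᵐ ω ∂μ, ω.1 ∈ Sep1 A B) ∧
      ∀ Δ > (0 : ℝ), ∃ N : ℕ, ∀ n, N ≤ n → ∀ σ ∈ Sep A B n, Symm σ →
        Dominated μ (fun ω => (EReal.exp (-relEntSep (tp n ω.1) + (n * Δ : ℝ))).toReal) σ := by
  obtain ⟨μ, h1, h0, h2⟩ := (base_sep1 (A := A) (B := B)).dominated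
  have one : ∀ (ω : States (A × B)) (t : ℝ), t • ω.1 ∈ Sep1 A B → t = 1 := fun ω t h => by
    have := (sep1_state h).2
    rwa [trace_smul, ω.2.2, Complex.real_smul, mul_one, Complex.ofReal_eq_one] at this
  refine ⟨μ, h1, h0.mono fun ω ⟨t, ht⟩ => by rwa [one ω t ht, one_smul] at ht,
    fun Δ hΔ => (h2 Δ hΔ).imp fun N hN n hn σ hσ hs => ?_⟩
  have lb : ∀ ω : States (A × B), ((-Fintype.card (Fin n → A × B) : ℝ) : EReal) ≤
      relEntSep (tp n ω.1) := fun ω =>
    le_iInf₂ fun τ hτ => relEnt_ge (tp_psd ω.2.1) (sep_state hτ)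
  have ub : ∀ ω : States (A × B), EReal.exp (-relEntSep (tp n ω.1) + (n * Δ : ℝ)) ≤
      ENNReal.ofReal (rexp (Fintype.card (Fin n → A × B) + n * Δ)) := fun ω => by
    rw [← EReal.exp_coe, EReal.exp_le_exp_iff, EReal.coe_add]
    exact add_le_add_left (EReal.neg_le.2 (lb ω)) _
  refine hN n hn _ (fun _ => ENNReal.toReal_nonneg) ⟨_, fun ω =>
      ENNReal.toReal_le_of_le_ofReal (Real.exp_pos _).le (ub ω)⟩ (fun ω t _ ht => ?_) σ
      (sep_state hσ).1 hs fun G hG => sep_bound (h G hG.1 (polar_prod hG) n) hσ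
  obtain rfl := one ω t ht
  rw [one_smul] at ht
  have : relEntSep (tp n ω.1) ≤ 0 := (iInf₂_le _ (tp_sep ht)).trans (relEnt_self _).le
  rw [one_pow, mul_one, ← ENNReal.ofReal_le_iff_le_toReal
    ((ub ω).trans_lt ENNReal.ofReal_lt_top).ne, ← EReal.exp_coe, EReal.exp_le_exp_iff]
  exact le_add_of_nonneg_left (EReal.neg_nonneg.2 this)

end Pool.Agent.MP_47bb2a_mp.H97
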