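import Pool.Agent.MP_47bb2a_mp.H97.Deform

/-! Complex Gaussian moments and the deformed reproducing formula for symmetric tensors. -/

open MeasureTheory Set Filter Real
open scoped ComplexConjugate Nat

namespace Pool.Agent.MP_47bb2a_mp.H97

theorem gauss_real {t : ℝ} (ht : 0 < t) (m : ℕ) :
    ∫ z : ℂ, ‖z‖ ^ m * rexp (-t * ‖z‖ ^ 2) =
      π * t ^ (-((m : ℝ) + 2) / 2) * Real.Gamma (((m : ℝ) + 2) / 2) := by
  have := Complex.integral_rpow_mul_exp_neg_mul_rpow (p := 2) (q := m) one_le_two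
    (by have : (0 : ℝ) ≤ m := m.cast_nonneg; linarith) ht
  simp only [Real.rpow_natCast, Real.rpow_two] at this
  rw [this]
  ring

theorem gauss_real_int {t : ℝ} (ht : 0 < t) (m : ℕ) :
    Integrable fun z : ℂ => ‖z‖ ^ m * rexp (-t * ‖z‖ ^ 2) :=
  .of_integral_ne_zero (by
    rw [gauss_real ht]
    have := Real.Gamma_pos_of_pos (s := ((m : ℝ) + 2) / 2) (by positivity)
    positivity)

/-- The one-dimensional integrand. -/
noncomputable def g1 (t : ℝ) (j k : ℕ) (z : ℂ) : ℂ := z ^ j * conj z ^ k * Complex.exp (-t * (z * conj z))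

theorem g1_exp (t : ℝ) (z : ℂ) : Complex.exp (-t * (z * conj z)) = rexp (-t * ‖z‖ ^ 2) := by
  rw [Complex.mul_conj, Complex.normSq_eq_norm_sq]
  push_cast
  rfl

theorem g1_int {t : ℝ} (ht : 0 < t) (j k : ℕ) : Integrable (g1 t j k) := by
  refine (gauss_real_int ht (j + k)).mono' (Continuous.aestronglyMeasurable (by
    unfold g1; fun_prop)) (Eventually.of_forall fun z => le_of_eq ?_)
  rw [g1, g1_exp, norm_mul, norm_mul, norm_pow, norm_pow, Complex.norm_conj, Complex.norm_real,
    Real.norm_of_nonneg (Real.exp_pos _).le, pow_add]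

theorem g1_diag {t : ℝ} (ht : 0 < t) (j : ℕ) : ∫ z, g1 t j j z = (π / t * (j ! / t ^ j) : ℝ) := by
  have e : ∀ z, g1 t j j z = (‖z‖ ^ (2 * j) * rexp (-t * ‖z‖ ^ 2) : ℝ) := fun z => by
    rw [g1, g1_exp, ← mul_pow, Complex.mul_conj, Complex.normSq_eq_norm_sq, pow_mul]
    push_cast
    rfl
  simp only [e]
  rw [integral_complex_ofReal, gauss_real ht]
  congr 1
  have e1 : (((2 * j : ℕ) : ℝ) + 2) / 2 = j + 1 := by push_cast; ring
  have e2 : -(((2 * j : ℕ) : ℝ) + 2) / 2 = -((j + 1 : ℕ) : ℝ) := by push_cast; ring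
  rw [e1, e2, Real.Gamma_nat_eq_factorial, Real.rpow_neg ht.le, Real.rpow_natCast]
  field_simp
  ring

theorem g1_off (t : ℝ) {j k : ℕ} (h : j ≠ k) : ∫ z, g1 t j k z = 0 := by
  have h0 : (j : ℝ) - k ≠ 0 := sub_ne_zero.2 (by exact_mod_cast h)
  set θ : ℝ := π / (j - k) with hθ
  have h1 := (rotation (Circle.exp θ)).measurePreserving.integral_comp
    (rotation (Circle.exp θ)).toHomeomorph.measurableEmbedding (g1 t j k)
  have h2 : ∀ z, g1 t j k (rotation (Circle.exp θ) z) = -g1 t j k z := fun z => by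
    have a1 : Complex.exp (θ * Complex.I) * conj (Complex.exp (θ * Complex.I)) = 1 := by
      rw [Complex.mul_conj, Complex.normSq_eq_norm_sq, Complex.norm_exp_ofReal_mul_I]; simp
    have a2 : Complex.exp (θ * Complex.I) ^ j * conj (Complex.exp (θ * Complex.I)) ^ k = -1 := by
      rw [← Complex.exp_conj, ← Complex.exp_nat_mul, ← Complex.exp_nat_mul, ← Complex.exp_add,
        ← Complex.exp_pi_mul_I]
      congr 1
      have : (π : ℂ) = θ * (j - k) := by
        rw [hθ]; push_cast
        have : (j : ℂ) - k ≠ 0 := by exact_mod_cast h0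
        field_simp
      rw [this]
      simp
      ring
    simp only [g1, rotation_apply, Circle.coe_exp, map_mul, mul_pow]
    rw [mul_mul_mul_comm (Complex.exp _) z, a1, mul_mul_mul_comm (Complex.exp _ ^ j), a2]
    ring_nf
  simp only [h2, integral_neg] at h1
  exact self_eq_neg.1 h1.symm

variable {κ : Type*} [Fintype κ] [DecidableEq κ] {n : ℕ}

/-- How often `k` occurs in `a`. -/
def cnt (a : Fin n → κ) (k : κ) : ℕ := Fintype.card {i // a i = k}

theorem prod_cnt (a : Fin n → κ) (z : κ → ℂ) : ∏ i, z (a i) = ∏ k, z k ^ cnt a k := by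
  rw [← Fintype.prod_fiberwise' a z]
  simp [cnt]

theorem sum_cnt (a : Fin n → κ) : ∑ k, cnt a k = n := by
  have := Fintype.sum_fiberwise' a fun _ => 1
  simpa [cnt] using this

theorem card_perm (a b : Fin n → κ) :
    (Finset.univ.filter fun g : Equiv.Perm (Fin n) => a ∘ g = b).card =
      if cnt a = cnt b then ∏ k, (cnt a k)! else 0 := by
  split_ifs with h
  · let e : Equiv.Perm (Fin n) := Equiv.ofFiberEquiv (f := b) (g := a) fun k =>
      Fintype.equivOfCardEq (congrFun h k).symm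
    have he : a ∘ e = b := funext fun i => Equiv.ofFiberEquiv_map _ i
    rw [show ∏ k, (cnt a k)! = _ from (DomMulAct.stabilizer_card a).symm, Fintype.card_subtype]
    refine (Finset.card_equiv (Equiv.mulRight e) fun g => ?_).symm
    simp only [Finset.mem_filter, Finset.mem_univ, true_and, Equiv.coe_mulRight,
      Equiv.Perm.coe_mul, ← he, ← Function.comp_assoc]
    exact (e.surjective.injective_comp_right.eq_iff).symm
  · refine Finset.card_eq_zero.2 (Finset.filter_eq_empty_iff.2 fun g _ hg => h ?_)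
    subst hg
    exact funext fun k => Fintype.card_congr (g.subtypeEquiv fun _ => Iff.rfl).symm

/-- A tensor as a homogeneous polynomial. -/
noncomputable def poly (P : (Fin n → κ) → ℂ) (z : κ → ℂ) : ℂ := ∑ a, P a * ∏ i, z (a i)

/-- The integrand of the reproducing formula. -/
noncomputable def kern (P Q : (Fin n → κ) → ℂ) (t : ℝ) (z ξ : κ → ℂ) : ℂ :=
  poly P z * poly Q ξ * Complex.exp (-t * ∑ k, z k * ξ k)

theorem kern_star (P Q : (Fin n → κ) → ℂ) (t : ℝ) (z : κ → ℂ) : kern P Q t z (star z) =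
    ∑ a, ∑ b, P a * Q b * ∏ k, g1 t (cnt a k) (cnt b k) (z k) := by
  simp only [kern, poly, prod_cnt]
  rw [Finset.sum_mul_sum, Finset.mul_sum, Complex.exp_sum]
  simp only [Finset.sum_mul, g1, Finset.prod_mul_distrib, Pi.star_apply, RCLike.star_def]
  exact Finset.sum_congr rfl fun a _ => Finset.sum_congr rfl fun b _ => by ring

theorem wick {t : ℝ} (ht : 0 < t) (P Q : (Fin n → κ) → ℂ)
    (hQ : ∀ (g : Equiv.Perm (Fin n)) a, Q (a ∘ g) = Q a) :
    Integrable (fun z => kern P Q t z (star z)) ∧ ∫ z, kern P Q t z (star z) =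
      ((π / t) ^ Fintype.card κ * (n ! / t ^ n) : ℝ) * ∑ a, P a * Q a := by
  have hi : ∀ a b : Fin n → κ, Integrable fun z : κ → ℂ =>
      P a * Q b * ∏ k, g1 t (cnt a k) (cnt b k) (z k) := fun a b =>
    (Integrable.fintype_prod fun k => g1_int ht _ _).const_mul _
  simp only [kern_star]
  refine ⟨integrable_finsetSum _ fun a _ => integrable_finsetSum _ fun b _ => hi a b, ?_⟩
  rw [integral_finsetSum _ fun a _ => integrable_finsetSum _ fun b _ => hi a b, Finset.mul_sum]
  refine Finset.sum_congr rfl fun a _ => ?_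
  rw [integral_finsetSum _ fun b _ => hi a b]
  have e : ∀ b : Fin n → κ, ∏ k, ∫ z, g1 t (cnt a k) (cnt b k) z =
      ((π / t) ^ Fintype.card κ / t ^ n : ℝ) *
        ((Finset.univ.filter fun g : Equiv.Perm (Fin n) => a ∘ g = b).card : ℂ) := fun b => by
    rw [card_perm]
    split_ifs with h
    · simp only [← h, g1_diag ht]
      push_cast
      rw [Finset.prod_mul_distrib, Finset.prod_const, Finset.prod_div_distrib,
        Finset.prod_pow_eq_pow_sum, sum_cnt, Finset.card_univ]
      ring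
    · obtain ⟨k, hk⟩ := Function.ne_iff.1 h
      rw [Finset.prod_eq_zero (Finset.mem_univ k) (g1_off t hk)]
      simp
  simp only [integral_const_mul,
    integral_fintype_prod_volume_eq_prod (fun k => g1 t (cnt a k) (cnt _ k)), e]
  have e2 : ∑ b, Q b * ((Finset.univ.filter fun g : Equiv.Perm (Fin n) => a ∘ g = b).card : ℂ) =
      n ! * Q a := by
    have := Finset.sum_fiberwise' (Finset.univ : Finset (Equiv.Perm (Fin n))) (fun g => a ∘ g) Q
    simp only [Finset.sum_const, nsmul_eq_mul, hQ, Finset.card_univ, Fintype.card_perm,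
      Fintype.card_fin] at this
    simpa only [mul_comm] using this
  calc _ = P a * ((π / t) ^ Fintype.card κ / t ^ n : ℝ) * ∑ b, Q b *
        ((Finset.univ.filter fun g : Equiv.Perm (Fin n) => a ∘ g = b).card : ℂ) := by
        rw [Finset.mul_sum]
        exact Finset.sum_congr rfl fun b _ => by ring
    _ = _ := by rw [e2]; push_cast; ring

omit [DecidableEq κ] in
theorem gaussN {t : ℝ} (ht : 0 < t) :
    Integrable (fun z : κ → ℂ => rexp (-t * ∑ k, ‖z k‖ ^ 2)) ∧
      ∫ z : κ → ℂ, rexp (-t * ∑ k, ‖z k‖ ^ 2) = (π / t) ^ Fintype.card κ := by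
  simp only [Finset.mul_sum, Real.exp_sum]
  have h1 := gauss_real_int ht 0
  have h2 := gauss_real ht 0
  simp only [pow_zero, one_mul] at h1 h2
  refine ⟨Integrable.fintype_prod (f := fun _ (z : ℂ) => rexp (-t * ‖z‖ ^ 2)) fun _ => h1, ?_⟩
  rw [integral_fintype_prod_volume_eq_pow (fun z : ℂ => rexp (-t * ‖z‖ ^ 2)), h2]
  norm_num [Real.rpow_neg_one, div_eq_mul_inv]

theorem pair_bound {u : (κ → ℂ) → κ → ℂ} (hu : ContDiff ℝ 1 u) {K : Set (κ → ℂ)}
    (hK : IsCompact K) (u0 : ∀ z ∉ K, u z = 0) : ∃ C > (0 : ℝ), ∀ (n : ℕ) (t : ℝ), 0 < t →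
      ∀ P Q : (Fin n → κ) → ℂ, (∀ (g : Equiv.Perm (Fin n)) a, Q (a ∘ g) = Q a) →
      (π / t) ^ Fintype.card κ * (n ! / t ^ n) * ‖∑ a, P a * Q a‖ ≤
        C * ∫ z, ‖kern P Q t z (star z + u z)‖ := by
  have hs : ContDiff ℝ 1 fun z => star (u z) :=
    contDiff_pi.2 fun k => Complex.conjCLE.contDiff.comp (contDiff_pi.1 hu k)
  obtain ⟨C, hC, h⟩ := deform (volume : Measure (κ → ℂ))
    (x := fun z => (1 / 2 : ℂ) • star (u z)) (y := fun z => (Complex.I / 2 : ℂ) • star (u z))
    (hs.const_smul _) (hs.const_smul _) hK (fun z hz => by simp [u0 z hz])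
    (fun z hz => by simp [u0 z hz])
  refine ⟨C, hC, fun n t ht P Q hQ => ?_⟩
  obtain ⟨w1, w2⟩ := wick ht P Q hQ
  have hc := hu.continuous
  have hc' := hs.continuous
  have key := (h (fun z => kern P Q t z (star z)) (fun z s τ => kern P Q t
    (z + ((s + Complex.I * τ) / 2) • star (u z)) (star z + ((s - Complex.I * τ) / 2) • u z)) w1
    (by unfold kern poly; fun_prop) (fun z τ => by unfold kern poly; fun_prop)
    (fun z s => by unfold kern poly; fun_prop) (fun z s τ => ?_) (fun z hz => by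
      simp [u0 z hz])).2
  · rw [w2, norm_mul, Complex.norm_real, Real.norm_of_nonneg (by positivity)] at key
    have e1 : ((1 : ℂ) - Complex.I * Complex.I) / 2 = 1 := by simp
    have e2 : ((1 : ℂ) + Complex.I * Complex.I) / 2 = 0 := by simp
    simpa only [e1, e2, one_smul, zero_smul, add_zero] using key
  · congr 1 <;> ext k <;> simp <;> ring

end Pool.Agent.MP_47bb2a_mp.H97
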