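import Pool.Agent.MP_47bb2a_mp.H97.Select
import Pool.Agent.MP_47bb2a_mp.H97.Wick

/-! The de Finetti reduction under a convex single-letter constraint. -/

open scoped ComplexOrder MatrixOrder ComplexConjugate Topology Nat
open Matrix Filter MeasureTheory Real

namespace Pool.Agent.MP_47bb2a_mp.H97

variable {ι : Type*} [Fintype ι] [DecidableEq ι] {n : ℕ}

omit [DecidableEq ι] in
theorem sum_pair (F : (Fin n → ι) → (Fin n → ι) → ℂ) :
    ∑ a : Fin n → ι × ι, F (fun i => (a i).1) (fun i => (a i).2) = ∑ x, ∑ y, F x y := by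
  rw [← Fintype.sum_prod_type']
  exact Fintype.sum_equiv (Equiv.arrowProdEquivProdArrow _ _ _) _ _ fun _ => rfl

omit [DecidableEq ι] in
theorem nsq_uncurry {ι' : Type*} [Fintype ι'] (M : Matrix ι ι' ℂ) :
    (Mᴴ * M).trace = nsq fun k : ι × ι' => M k.1 k.2 := by
  rw [← dot_self]
  simp only [trace, diag_apply, mul_apply, conjTranspose_apply, dotProduct, Fintype.sum_prod_type,
    Pi.star_apply]
  exact Finset.sum_comm

omit [DecidableEq ι] in
theorem cs_trace {G : Matrix ι ι ℂ} (hG : G.PosSemidef) (K Y : Matrix ι ι ℂ) :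
    ‖(Kᴴ * G * Y).trace‖ ^ 2 ≤ (Kᴴ * G * K).trace.re * (Yᴴ * G * Y).trace.re := by
  obtain ⟨B, rfl⟩ := exists_ct hG
  have e : ∀ K Y : Matrix ι ι ℂ, Kᴴ * (Bᴴ * B) * Y = (B * K)ᴴ * (B * Y) := fun K Y => by
    simp only [conjTranspose_mul, Matrix.mul_assoc]
  rw [e, e, e, nsq_uncurry, nsq_uncurry, Complex.ofReal_re, Complex.ofReal_re]
  refine le_of_eq_of_le ?_ (cs _ _)
  simp only [trace, diag_apply, mul_apply (M := (B * K)ᴴ), conjTranspose_apply, dotProduct,
    Fintype.sum_prod_type, Pi.star_apply]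
  rw [Finset.sum_comm]

omit [DecidableEq ι] in
theorem q_self_le (z : ι × ι → ℂ) (v : ι → ℂ) : q (mat z * (mat z)ᴴ) v ≤ nsq z * nsq v := by
  conv_lhs => rw [← conjTranspose_conjTranspose (mat z), conjTranspose_conjTranspose (mat z)ᴴ]
  rw [q_ct_mul, nsq, nsq, Fintype.sum_prod_type_right, Finset.sum_mul]
  exact Finset.sum_le_sum fun j _ => cs (fun i => z (i, j)) v

theorem exists_symm_sq {σ : Matrix (Fin n → ι) (Fin n → ι) ℂ} (h : σ.PosSemidef) (hs : Symm σ) :
    ∃ Y : Matrix (Fin n → ι) (Fin n → ι) ℂ, Y.IsHermitian ∧ σ = Y * Y ∧ Symm Y := by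
  have h1 := (CFC.sqrt_nonneg σ).posSemidef
  have h2 := CFC.sqrt_mul_sqrt_self σ h.nonneg
  refine ⟨CFC.sqrt σ, h1.1, h2.symm, fun g x y => ?_⟩
  let e : (Fin n → ι) ≃ (Fin n → ι) := g.symm.arrowCongr (Equiv.refl ι)
  have h3 : CFC.sqrt σ = (CFC.sqrt σ).submatrix e e := CFC.sqrt_unique (by
    rw [submatrix_mul_equiv, h2]
    ext x y
    exact hs g x y) (h1.submatrix e).nonneg
  exact (congrFun (congrFun h3 x) y).symm

variable {C : Set (Matrix ι ι ℂ)} {c : ℝ}

theorem kern_sq (h : Base C c) {Y : Matrix (Fin n → ι) (Fin n → ι) ℂ} (hY : Y.IsHermitian)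
    (hσ : ∀ G, Polar C G → (tp n G * (Y * Y)).trace.re ≤ 1) {v : (Fin n → ι) → ℂ} {m : ℝ}
    (hm : ∀ ω ∈ C, q (tp n ω) v ≤ m) {G : Matrix ι ι ℂ} (hG : Polar C G) {M : ℝ} (hM : 0 ≤ M)
    (z : ι × ι → ℂ) {s : ℝ} (hs : 0 ≤ s) (hz : Below C (mat z * (mat z)ᴴ) s) (t : ℝ) {a : ℝ}
    (ha : a = nsq z + M * (G * (mat z * (mat z)ᴴ)).trace.re) :
    ‖kern (fun a : Fin n → ι × ι => star v (fun i => (a i).1) * (Y *ᵥ v) fun i => (a i).2)
      (fun a => Y (fun i => (a i).1) fun i => (a i).2) t z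
      (star z + fun k => conj ((M • (G * mat z)) k.1 k.2))‖ ^ 2 ≤
      m * nsq (Y *ᵥ v) * (s * a * (1 + M)) ^ n * rexp (-(2 * t * a)) := by
  set K := mat z with hK
  set G' : Matrix ι ι ℂ := 1 + M • G with hG'
  have G'psd : G'.PosSemidef := PosSemidef.one.add (psd_rsmul hG.1 hM)
  have eξ : (star z + fun k => conj ((M • (G * K)) k.1 k.2)) =
      fun k => conj ((G' * K) k.1 k.2) := by
    ext k
    simp [hG', Matrix.add_mul, hK, mat]
  have ea : (Kᴴ * G' * K).trace = a := by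
    have h1 : (G * (K * Kᴴ)).trace = (G * (K * Kᴴ)).trace.re := by
      rw [← Matrix.mul_assoc, trace_mul_cycle]
      exact (Complex.ext rfl (Complex.nonneg_iff.1
        (hG.1.conjTranspose_mul_mul_same K).trace_nonneg).2.symm)
    rw [hG', Matrix.mul_add, Matrix.add_mul, Matrix.mul_one, trace_add, nsq_uncurry,
      Matrix.mul_smul, Matrix.smul_mul, trace_smul, ← trace_mul_cycle, Matrix.mul_assoc, h1, ha]
    simp [hK, mat]
  have a0 : 0 ≤ a := by
    have := Complex.nonneg_iff.1 (G'psd.conjTranspose_mul_mul_same K).trace_nonneg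
    rw [ea] at this
    exact this.1
  have e1 : poly (fun a : Fin n → ι × ι => star v (fun i => (a i).1) * (Y *ᵥ v) fun i => (a i).2) z
      = star ((tp n K)ᴴ *ᵥ v) ⬝ᵥ (Y *ᵥ v) := by
    rw [star_mulVec, conjTranspose_conjTranspose, ← dotProduct_mulVec]
    refine (sum_pair fun x y => star v x * (Y *ᵥ v) y * tp n K x y).trans ?_
    simp only [dotProduct, mulVec_apply_eq_sum (M := tp n K), Finset.mul_sum]
    exact Finset.sum_congr rfl fun x _ => Finset.sum_congr rfl fun y _ => by ring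
  have e2 : poly (fun a : Fin n → ι × ι => Y (fun i => (a i).1) fun i => (a i).2)
      (fun k => conj ((G' * K) k.1 k.2)) = ((tp n K)ᴴ * tp n G' * Y).trace := by
    rw [← (tp_psd G'psd).1.eq, ← conjTranspose_mul, tp_mul, trace_mul_comm]
    refine Eq.trans ?_ (sum_pair fun x y => Y x y * (tp n (G' * K))ᴴ y x)
    simp [poly, tp]
  have e3 : ∑ k, z k * conj ((G' * K) k.1 k.2) = a := by
    rw [← ea, ← G'psd.1.eq, ← conjTranspose_mul, trace_mul_comm, G'psd.1.eq]
    simp only [trace, diag_apply, mul_apply (M := K), conjTranspose_apply, Fintype.sum_prod_type]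
    rfl
  have m0 : 0 ≤ m := (q_nonneg (tp_psd (h.psd _ h.one)) v).trans (hm _ h.one)
  have b1 : nsq ((tp n K)ᴴ *ᵥ v) ≤ s ^ n * m := by
    obtain ⟨ω, h1, h2⟩ := hz
    rw [← q_ct_mul, conjTranspose_conjTranspose, tp_ct, tp_mul]
    refine (q_le (tp_mono (posSemidef_self_mul_conjTranspose K) h2) v).trans ?_
    rw [tp_rsmul, q_rsmul]
    exact mul_le_mul_of_nonneg_left (hm ω h1) (pow_nonneg hs n)
  have b2 : ((tp n K)ᴴ * tp n G' * tp n K).trace.re = a ^ n := by
    rw [tp_ct, tp_mul, tp_mul, tp_trace, ea, ← Complex.ofReal_pow, Complex.ofReal_re]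
  have b3 : (Yᴴ * tp n G' * Y).trace.re ≤ (1 + M) ^ n := by
    have h0 : 0 < 1 + M := by linarith
    have := hσ ((1 + M)⁻¹ • G') ⟨psd_rsmul G'psd (inv_pos.2 h0).le, fun ω hω => by
      rw [hG', Matrix.smul_mul, Matrix.add_mul, Matrix.smul_mul, Matrix.one_mul, trace_smul,
        trace_add, trace_smul, Complex.smul_re, Complex.add_re, Complex.smul_re, smul_eq_mul,
        smul_eq_mul, inv_mul_le_one₀ h0]
      nlinarith [h.tr ω hω, hG.2 ω hω]⟩
    rw [tp_rsmul, Matrix.smul_mul, trace_smul, Complex.smul_re, smul_eq_mul, inv_pow,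
      inv_mul_le_one₀ (pow_pos h0 n), ← Matrix.mul_assoc, trace_mul_cycle] at this
    rwa [hY.eq]
  have c1 := (cs ((tp n K)ᴴ *ᵥ v) (Y *ᵥ v)).trans
    (mul_le_mul_of_nonneg_right b1 (nsq_nonneg _))
  have c2 := cs_trace (tp_psd (n := n) G'psd) (tp n K) Y
  rw [b2] at c2
  have c3 := c2.trans (mul_le_mul_of_nonneg_left b3 (pow_nonneg a0 n))
  have c4 : ‖Complex.exp (-t * a)‖ ^ 2 = rexp (-(2 * t * a)) := by
    rw [Complex.norm_exp, ← Real.exp_nat_mul]
    simp
    ring
  rw [eξ, kern, e1, e2, e3, norm_mul, norm_mul, mul_pow, mul_pow, c4]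
  have := nsq_nonneg (Y *ᵥ v)
  calc _ ≤ (s ^ n * m * nsq (Y *ᵥ v)) * (a ^ n * (1 + M) ^ n) * rexp (-(2 * t * a)) := by gcongr
    _ = _ := by rw [mul_pow, mul_pow]; ring

theorem num_in {ε x : ℝ} (h0 : 0 < ε) (h1 : ε ≤ 1 / 2) (hx : 0 ≤ x) :
    x + ε ≤ rexp (3 * ε - 1 + (1 - ε) * x) := by
  have a1 := Real.add_one_le_exp ((1 - ε) * (x + ε) - 1)
  have a2 := Real.add_one_le_exp (2 * ε)
  calc x + ε ≤ (2 * ε + 1) * ((1 - ε) * (x + ε) - 1 + 1) := by
        nlinarith [mul_nonneg (mul_nonneg h0.le (sub_nonneg.2 h1)) (add_nonneg hx h0.le)]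
    _ ≤ rexp (2 * ε) * rexp ((1 - ε) * (x + ε) - 1) := by
        gcongr
        nlinarith [mul_nonneg (sub_nonneg.2 h1) (add_nonneg hx h0.le)]
    _ ≤ _ := by
        rw [← Real.exp_add, Real.exp_le_exp]
        nlinarith

theorem num_out {x b : ℝ} (hx : 0 ≤ x) (hb : 6 * rexp 2 * b ≤ x) :
    b * x ^ 2 ≤ rexp (x - 2) := by
  have a1 := Real.pow_div_factorial_le_exp x hx 3
  have a2 := Real.exp_pos 2
  rw [Real.exp_sub, le_div_iff₀ a2]
  norm_num [Nat.factorial] at a1
  nlinarith [mul_le_mul_of_nonneg_right hb (sq_nonneg x)]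

theorem core (h : Base C c) {Δ : ℝ} (hΔ : 0 < Δ) : ∃ N : ℕ, ∀ n, N ≤ n →
    ∀ σ : Matrix (Fin n → ι) (Fin n → ι) ℂ, σ.PosSemidef → Symm σ →
      (∀ G, Polar C G → (tp n G * σ).trace.re ≤ 1) → ∀ (v : (Fin n → ι) → ℂ) (m : ℝ),
        (∀ ω ∈ C, q (tp n ω) v ≤ m) → q σ v ≤ rexp (n * Δ) * m := by
  obtain ⟨ε, ε0, ε1, ε2⟩ : ∃ ε : ℝ, 0 < ε ∧ ε ≤ 1 / 2 ∧ ε ≤ Δ / 16 :=
    ⟨min (1 / 2) (Δ / 16), by positivity, min_le_left _ _, min_le_right _ _⟩
  have hc := h.pos
  set M := ε⁻¹ with hM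
  have M0 : 0 < M := inv_pos.2 ε0
  have εM : ε * M = 1 := mul_inv_cancel₀ ε0.ne'
  set R := 6 * rexp 2 * (M / c) * M with hR
  obtain ⟨G, G1, G2⟩ := h.select ε0 R
  have hcomp : IsCompact {z : ι × ι → ℂ | nsq z ≤ R + 1} := by
    refine Metric.isCompact_of_isClosed_isBounded (isClosed_le continuous_nsq continuous_const)
      ((Metric.isBounded_closedBall (x := 0) (r := √(R + 1))).subset fun z hz => ?_)
    rw [mem_closedBall_zero_iff, pi_norm_le_iff_of_nonneg (Real.sqrt_nonneg _)]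
    exact fun k => Real.le_sqrt_of_sq_le ((Finset.single_le_sum (f := fun i => ‖z i‖ ^ 2)
      (fun _ _ => sq_nonneg _) (Finset.mem_univ k)).trans hz)
  obtain ⟨D, D0, hD⟩ := pair_bound
    (u := fun z k => conj ((M • (mat (G z) * mat z)) k.1 k.2)) (by
      refine contDiff_pi.2 fun k => Complex.conjCLE.contDiff.comp ?_
      simp only [Matrix.smul_apply, mul_apply, mat, of_apply]
      fun_prop) hcomp fun z hz => by
      rw [(G2 z).2.2 (not_le.1 hz).le, show mat (0 : ι × ι → ℂ) = 0 from rfl]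
      ext k
      simp
  set N := Fintype.card (ι × ι) with hN
  have hev : ∀ᶠ n : ℕ in atTop, (D * (n / ε) ^ N) ^ 2 ≤ rexp (n * Δ / 2) := by
    have h1 : Tendsto (fun n : ℕ => n * Δ / 2) atTop atTop :=
      (tendsto_natCast_atTop_atTop.atTop_mul_const hΔ).atTop_div_const two_pos
    filter_upwards [((tendsto_exp_div_pow_atTop (2 * N)).comp h1).eventually_ge_atTop
      ((D * (2 / (Δ * ε)) ^ N) ^ 2), eventually_gt_atTop 0] with n h2 h3
    rw [Function.comp_apply, le_div_iff₀ (by positivity)] at h2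
    refine le_of_eq_of_le ?_ h2
    rw [pow_mul', ← mul_pow, mul_assoc, ← mul_pow]
    congr 3
    field_simp
  obtain ⟨N₀, hN₀⟩ := eventually_atTop.1 (hev.and (eventually_ge_atTop 1))
  refine ⟨N₀, fun n hn σ hσ hs hG v m hm => ?_⟩
  obtain ⟨n1, n2⟩ := hN₀ n hn
  have n0 : (1 : ℝ) ≤ n := by exact_mod_cast n2
  obtain ⟨Y, Y1, rfl, Y3⟩ := exists_symm_sq hσ hs
  have m0 : 0 ≤ m := (q_nonneg (tp_psd (h.psd _ h.one)) v).trans (hm _ h.one)
  set S := nsq (Y *ᵥ v) with hS
  have S0 : 0 ≤ S := nsq_nonneg _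
  have eS : q (Y * Y) v = S := by rw [hS, ← q_ct_mul, Y1.eq]
  have key := hD n (n * ε) (by positivity)
    (fun a => star v (fun i => (a i).1) * (Y *ᵥ v) fun i => (a i).2)
    (fun a => Y (fun i => (a i).1) fun i => (a i).2) fun g a =>
      Y3 g (fun i => (a i).1) fun i => (a i).2
  have e1 : ∑ a : Fin n → ι × ι, (star v (fun i => (a i).1) * (Y *ᵥ v) fun i => (a i).2) *
      Y (fun i => (a i).1) (fun i => (a i).2) = S := by
    rw [hS, ← dot_self, star_mulVec, Y1.eq, ← dotProduct_mulVec]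
    refine (sum_pair fun x y => star v x * (Y *ᵥ v) y * Y x y).trans ?_
    simp only [dotProduct, mulVec_apply_eq_sum (M := Y) (v := Y *ᵥ v), Finset.mul_sum]
    exact Finset.sum_congr rfl fun x _ => Finset.sum_congr rfl fun y _ => by ring
  rw [e1, Complex.norm_real, Real.norm_of_nonneg S0] at key
  set l := M * rexp (4 * ε - 1) with hl
  obtain ⟨i1, i2⟩ := gaussN (κ := ι × ι) (t := ε ^ 2) (by positivity)
  have key2 := key.trans (mul_le_mul_of_nonneg_left (integral_mono_of_nonneg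
    (Eventually.of_forall fun z => norm_nonneg _) (i1.const_mul (√(m * S) * l ^ n))
    (Eventually.of_forall fun z => ?_)) D0.le)
  · rw [integral_const_mul, i2] at key2
    have a1 : (M * rexp (-1)) ^ n ≤ n ! / (n * ε) ^ n := by
      have := Real.pow_div_factorial_le_exp n (by positivity) n
      rw [div_le_iff₀ (by positivity)] at this
      rw [le_div_iff₀ (by positivity), ← mul_pow,
        show M * rexp (-1) * (n * ε) = n * (ε * M) * rexp (-1) by ring, εM, mul_one, mul_pow,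
        ← Real.exp_nat_mul, mul_neg_one, Real.exp_neg, ← div_eq_mul_inv,
        div_le_iff₀ (by positivity), mul_comm]
      exact this
    have a2 : S ≤ D * (n / ε) ^ N * rexp (n * (4 * ε)) * √(m * S) := by
      refine le_of_mul_le_mul_left (a := (π / (n * ε)) ^ N * (M * rexp (-1)) ^ n) ?_
        (by positivity)
      refine le_trans (by gcongr) (key2.trans (le_of_eq ?_))
      rw [hl, Real.exp_nat_mul, sub_eq_add_neg, Real.exp_add,
        show π / ε ^ 2 = π / (n * ε) * (n / ε) by field_simp, mul_pow, mul_pow, mul_pow, mul_pow]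
      ring
    have a3 : S ^ 2 ≤ (D * (n / ε) ^ N) ^ 2 * rexp (n * (4 * ε)) ^ 2 * (m * S) := by
      refine (pow_le_pow_left₀ S0 a2 2).trans (le_of_eq ?_)
      rw [mul_pow, mul_pow, Real.sq_sqrt (by positivity)]
    have a4 : rexp (n * (4 * ε)) ^ 2 ≤ rexp (n * Δ / 2) := by
      rw [← Real.exp_nat_mul, Real.exp_le_exp]
      push_cast
      nlinarith
    have a5 : S ^ 2 ≤ rexp (n * Δ) * m * S := by
      calc _ ≤ rexp (n * Δ / 2) * rexp (n * Δ / 2) * (m * S) := a3.trans (by gcongr)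
        _ = _ := by rw [← Real.exp_add, add_halves, mul_assoc]
    rw [eS]
    rcases S0.eq_or_lt with h0 | h0
    · rw [← h0]; positivity
    · exact le_of_mul_le_mul_right (by rwa [← sq]) h0
  · obtain ⟨g1, g2, -⟩ := G2 z
    set g := (mat (G z) * (mat z * (mat z)ᴴ)).trace.re with hg
    have g0 : 0 ≤ g := tr_nonneg g1.1 (posSemidef_self_mul_conjTranspose _)
    have z0 := nsq_nonneg z
    set a := nsq z + M * g with ha
    have a0 : 0 ≤ a := by positivity
    set x := ε * a with hx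
    have x0 : 0 ≤ x := by positivity
    have xa : a = M * x := by rw [hx, ← mul_assoc, mul_comm M, εM, one_mul]
    have xg : x = ε * nsq z + g := by rw [hx, ha, mul_add, ← mul_assoc, εM, one_mul]
    have M1 : 1 + M ≤ M * rexp ε := by nlinarith [Real.add_one_le_exp ε]
    obtain ⟨s, s0, s1, s2⟩ : ∃ s, 0 ≤ s ∧ Below C (mat z * (mat z)ᴴ) s ∧
        s * x ≤ rexp (3 * ε - 1 + (1 - ε) * x) ^ 2 := by
      rcases le_total (nsq z) R with h1 | h1
      · refine ⟨g + ε, by positivity, g2 h1, le_trans ?_ (pow_le_pow_left₀ (by positivity)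
          (num_in ε0 ε1 x0) 2)⟩
        nlinarith [mul_nonneg ε0.le z0]
      · refine ⟨nsq z / c, by positivity,
          h.below (isHermitian_mul_conjTranspose_self _) (q_self_le z), ?_⟩
        have b1 : 6 * rexp 2 * (M / c) ≤ x := by
          have := mul_le_mul_of_nonneg_left h1 ε0.le
          rw [hR, mul_comm _ M, ← mul_assoc, εM, one_mul] at this
          linarith
        calc nsq z / c * x ≤ M * x / c * x := by
              gcongr
              rw [← xa, ha]
              exact le_add_of_nonneg_right (by positivity)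
          _ = M / c * x ^ 2 := by ring
          _ ≤ rexp (x - 2) := num_out x0 b1
          _ ≤ _ := by
              rw [← Real.exp_nat_mul, Real.exp_le_exp]
              push_cast
              nlinarith
    have b := kern_sq h Y1 hG hm g1 M0.le z s0 s1 (n * ε) ha
    refine (sq_le_sq₀ (norm_nonneg _) (by positivity)).1 (b.trans ?_)
    have b2 : s * a * (1 + M) ≤ (l * rexp ((1 - ε) * x)) ^ 2 := by
      calc s * a * (1 + M) = M * (s * x) * (1 + M) := by rw [xa]; ring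
        _ ≤ M * rexp (3 * ε - 1 + (1 - ε) * x) ^ 2 * (M * rexp (2 * ε)) := by
            gcongr
            exact M1.trans (by gcongr; linarith)
        _ = _ := by
            rw [hl, mul_assoc M (rexp _) (rexp _), ← Real.exp_add, mul_pow, ← Real.exp_nat_mul,
              ← Real.exp_nat_mul, mul_mul_mul_comm, ← Real.exp_add, ← sq]
            congr 2
            push_cast
            ring
    calc _ ≤ m * S * ((l * rexp ((1 - ε) * x)) ^ 2) ^ n * rexp (-(2 * (n * ε) * a)) := by gcongr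
      _ = m * S * (l ^ n) ^ 2 * rexp (n * (2 * ((1 - ε) * x)) + -(2 * (n * ε) * a)) := by
          rw [Real.exp_add, Real.exp_nat_mul, show (2 : ℝ) = (2 : ℕ) by norm_num, Real.exp_nat_mul]
          ring
      _ ≤ m * S * (l ^ n) ^ 2 * rexp (2 * (-ε ^ 2 * ∑ k, ‖z k‖ ^ 2)) := by
          gcongr
          have b3 : ε * nsq z ≤ n * x := by nlinarith
          have b4 : (n : ℝ) * ε * a = n * x := by rw [hx]; ring
          show _ ≤ 2 * (-ε ^ 2 * nsq z)
          nlinarith [mul_le_mul_of_nonneg_left b3 ε0.le]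
      _ = (√(m * S) * l ^ n * rexp (-ε ^ 2 * ∑ k, ‖z k‖ ^ 2)) ^ 2 := by
          rw [mul_pow (_ * _) (rexp _) 2, mul_pow (√_) _ 2, Real.sq_sqrt (by positivity),
            ← Real.exp_nat_mul]
          norm_num

end Pool.Agent.MP_47bb2a_mp.H97
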