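import Mathlib

/-! Deformation of the contour of an integral over a real vector space into its
complexification, by analytic continuation of the change of variables formula. -/

open MeasureTheory Set Filter Metric Topology

namespace Pool.Agent.MP_47bb2a_mp.H97

theorem entire_integral {X : Type*} [TopologicalSpace X] [T2Space X] [MeasurableSpace X]
    [BorelSpace X] [SecondCountableTopology X] (μ : Measure X) [IsFiniteMeasureOnCompacts μ]
    {K : Set X} (hK : IsCompact K) {g : X → ℂ → ℂ} (hg : Continuous g.uncurry)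
    (hd : ∀ z, Differentiable ℂ (g z)) : Differentiable ℂ fun s => ∫ z in K, g z s ∂μ := by
  intro s₀
  obtain ⟨B, hB⟩ := (hK.prod (isCompact_closedBall s₀ 2)).exists_bound_of_continuousOn
    hg.continuousOn
  have hc : ∀ s, Continuous fun z => g z s := fun s => hg.comp (Continuous.prodMk_left s)
  have : IsFiniteMeasure (μ.restrict K) := ⟨by simpa using hK.measure_lt_top⟩
  refine (hasDerivAt_integral_of_dominated_loc_of_deriv_le (μ := μ.restrict K)
    (F := fun s z => g z s) (F' := fun s z => deriv (g z) s) (bound := fun _ => B)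
    (ball_mem_nhds s₀ one_pos) (Eventually.of_forall fun s => (hc s).aestronglyMeasurable)
    ((hc s₀).continuousOn.integrableOn_compact hK) ?_ ?_ (integrable_const B)
    (Eventually.of_forall fun z s _ => (hd z s).hasDerivAt)).2.differentiableAt
  · exact ((measurable_deriv_with_param hg).comp measurable_prodMk_right).aestronglyMeasurable
  · refine (ae_restrict_iff' hK.measurableSet).2 (Eventually.of_forall fun z hz s hs => ?_)
    have := Complex.norm_deriv_le_of_forall_mem_sphere_norm_le (c := s) (C := B) one_pos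
      (hd z).diffContOnCl fun w hw => hB (z, w) ⟨hz, by
        have h1 := dist_triangle w s s₀
        rw [mem_sphere.1 hw] at h1
        have h2 := mem_ball.1 hs
        exact mem_closedBall.2 (by linarith)⟩
    simpa using this

theorem const_of_real {h : ℂ → ℂ} (hd : Differentiable ℂ h) {η : ℝ} (hη : 0 < η) {c : ℂ}
    (hc : ∀ s : ℝ, |s| < η → h s = c) (s : ℂ) : h s = c := by
  have h1 : Tendsto (fun s : ℝ => (s : ℂ)) (𝓝[≠] 0) (𝓝[≠] 0) :=
    tendsto_nhdsWithin_iff.2 ⟨by
      simpa using (Complex.continuous_ofReal.tendsto 0).mono_left nhdsWithin_le_nhds,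
      eventually_mem_nhdsWithin.mono fun s hs => by simpa using hs⟩
  have h2 : ∀ᶠ s : ℝ in 𝓝[≠] 0, h s = c :=
    nhdsWithin_le_nhds (mem_of_superset (ball_mem_nhds 0 hη) fun s hs => hc s (by simpa using hs))
  exact congrFun (AnalyticOnNhd.eq_of_frequently_eq (g := fun _ => c)
    (hd.differentiableOn.analyticOnNhd isOpen_univ) analyticOnNhd_const
    (h1.frequently h2.frequently)) s

variable {X : Type*} [NormedAddCommGroup X] [NormedSpace ℝ X] [FiniteDimensional ℝ X]
  [MeasurableSpace X] [BorelSpace X]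

/-- Change of variables for a small compactly supported perturbation of the identity. -/
theorem change_small (μ : Measure X) [μ.IsAddHaarMeasure] {K : Set X} (hK : IsCompact K) :
    ∃ η > (0 : ℝ), ∀ u : X → X, Differentiable ℝ u → (∀ z, ‖fderiv ℝ u z‖ ≤ η) →
      (∀ z ∉ K, u z = 0) → ∀ f : X → ℂ, ∫ z in K, f z ∂μ =
        ∫ z in K, (ContinuousLinearMap.id ℝ X + fderiv ℝ u z).det • f (z + u z) ∂μ := by
  have : CompleteSpace X := FiniteDimensional.complete ℝ X
  have h0 : ∀ᶠ A in 𝓝 (ContinuousLinearMap.id ℝ X), 0 < A.det :=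
    ContinuousLinearMap.continuous_det.continuousAt.eventually (lt_mem_nhds (by
      simp [ContinuousLinearMap.det]))
  obtain ⟨ε, hε, h1⟩ := Metric.mem_nhds_iff.1 h0
  refine ⟨min (ε / 2) (1 / 2), by positivity, fun u hu hb h0 f => ?_⟩
  have hL : LipschitzWith (1 / 2) u := lipschitzWith_of_nnnorm_fderiv_le hu fun z => by
    have := (hb z).trans (min_le_right _ _)
    exact_mod_cast this
  have hinj : Function.Injective fun z => z + u z := fun z w h => by
    have h2 := hL.dist_le_mul z w
    have h3 : z - w = -(u z - u w) := by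
      have : z + u z = w + u w := h
      rw [neg_sub, sub_eq_sub_iff_add_eq_add, this, add_comm]
    rw [dist_eq_norm, dist_eq_norm, ← norm_neg, ← h3] at h2
    have h4 : ‖z - w‖ ≤ 0 := by push_cast at h2; linarith
    exact sub_eq_zero.1 (norm_le_zero_iff.1 h4)
  have hsur : ∀ w, ∃ z, z + u z = w := fun w => by
    have : Nonempty X := ⟨0⟩
    have hc : ContractingWith (1 / 2) fun z => w - u z := ⟨by norm_num,
      LipschitzWith.of_dist_le_mul fun a b => by
        rw [dist_sub_left]; exact hL.dist_le_mul a b⟩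
    exact ⟨_, (eq_sub_iff_add_eq.1 hc.fixedPoint_isFixedPt.symm)⟩
  have him : (fun z => z + u z) '' K = K := by
    refine Subset.antisymm ?_ fun w hw => ?_
    · rintro _ ⟨z, hz, rfl⟩
      by_contra h
      have := hinj (show z + u z + u (z + u z) = z + u z by rw [h0 _ h, add_zero])
      exact h (by show z + u z ∈ K; rwa [this])
    · obtain ⟨z, rfl⟩ := hsur w
      refine ⟨z, by_contra fun h => h ?_, rfl⟩
      rwa [h0 z h, add_zero] at hw
  conv_lhs => rw [← him]
  rw [integral_image_eq_integral_abs_det_fderiv_smul μ hK.measurableSet (f := fun z => z + u z)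
    (f' := fun z => ContinuousLinearMap.id ℝ X + fderiv ℝ u z)
    (fun z _ => ((hasFDerivAt_id z).add (hu z).hasFDerivAt).hasFDerivWithinAt) hinj.injOn]
  refine integral_congr_ae (Eventually.of_forall fun z => ?_)
  have : 0 < (ContinuousLinearMap.id ℝ X + fderiv ℝ u z).det := h1 (by
    rw [mem_ball, dist_eq_norm, add_sub_cancel_left]
    exact ((hb z).trans (min_le_left _ _)).trans_lt (by linarith))
  simp only [abs_of_pos this]

omit [MeasurableSpace X] [BorelSpace X] in
theorem exists_jac {x y : X → X} (hx : ContDiff ℝ 1 x) (hy : ContDiff ℝ 1 y) :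
    ∃ D : X → ℂ → ℂ → ℂ, (Continuous fun p : X × ℂ × ℂ => D p.1 p.2.1 p.2.2) ∧
      (∀ z t, Differentiable ℂ fun s => D z s t) ∧ (∀ z s, Differentiable ℂ (D z s)) ∧
      ∀ z (s t : ℝ), D z s t =
        ((ContinuousLinearMap.id ℝ X + (s • fderiv ℝ x z + t • fderiv ℝ y z)).det : ℝ) := by
  classical
  let b := Module.finBasis ℝ X
  let m : (X →L[ℝ] X) → Matrix _ _ ℂ := fun A =>
    (LinearMap.toMatrix b b (A : X →ₗ[ℝ] X)).map (algebraMap ℝ ℂ)
  have hm : Continuous m := continuous_matrix fun i j => by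
    simp only [m, Matrix.map_apply, LinearMap.toMatrix_apply]
    exact Complex.continuous_ofReal.comp ((b.coord i).continuous_of_finiteDimensional.comp
      (ContinuousLinearMap.apply ℝ X (b j)).continuous)
  let D : X → ℂ → ℂ → ℂ := fun z s t => (1 + s • m (fderiv ℝ x z) + t • m (fderiv ℝ y z)).det
  have hD : Continuous fun p : X × ℂ × ℂ => D p.1 p.2.1 p.2.2 := by
    have a1 := (hm.comp (hx.continuous_fderiv one_ne_zero)).comp
      (continuous_fst : Continuous fun p : X × ℂ × ℂ => p.1)
    have a2 := (hm.comp (hy.continuous_fderiv one_ne_zero)).comp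
      (continuous_fst : Continuous fun p : X × ℂ × ℂ => p.1)
    exact ((continuous_const.add (continuous_snd.fst.smul a1)).add
      (continuous_snd.snd.smul a2)).matrix_det
  have hdet : ∀ A B : Matrix (Fin (Module.finrank ℝ X)) (Fin (Module.finrank ℝ X)) ℂ,
      Differentiable ℂ fun s : ℂ => (A + s • B).det := fun A B => by
    simp only [Matrix.det_apply', Matrix.add_apply, Matrix.smul_apply, smul_eq_mul]
    fun_prop
  have D1 : ∀ z t, Differentiable ℂ fun s => D z s t := fun z t => by
    simpa only [D, add_right_comm] using hdet (1 + t • m (fderiv ℝ y z)) (m (fderiv ℝ x z))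
  have D2 : ∀ z s, Differentiable ℂ (D z s) := fun z s => hdet _ _
  have Dr : ∀ z (s t : ℝ), D z s t =
      ((ContinuousLinearMap.id ℝ X + (s • fderiv ℝ x z + t • fderiv ℝ y z)).det : ℝ) := by
    intro z s t
    rw [ContinuousLinearMap.det, ← LinearMap.det_toMatrix b]
    refine Eq.trans ?_ ((algebraMap ℝ ℂ).map_det _).symm
    simp only [D]
    congr 1
    ext i j
    simp [m, Matrix.one_apply, apply_ite, add_assoc]
  exact ⟨D, hD, D1, D2, Dr⟩

theorem deform (μ : Measure X) [μ.IsAddHaarMeasure] {x y : X → X} (hx : ContDiff ℝ 1 x)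
    (hy : ContDiff ℝ 1 y) {K : Set X} (hK : IsCompact K) (x0 : ∀ z ∉ K, x z = 0)
    (y0 : ∀ z ∉ K, y z = 0) : ∃ C > (0 : ℝ), ∀ (f : X → ℂ) (Ψ : X → ℂ → ℂ → ℂ),
      Integrable f μ → Continuous (fun p : X × ℂ × ℂ => Ψ p.1 p.2.1 p.2.2) →
      (∀ z t, Differentiable ℂ fun s => Ψ z s t) → (∀ z s, Differentiable ℂ (Ψ z s)) →
      (∀ z (s t : ℝ), Ψ z s t = f (z + (s • x z + t • y z))) →
      (∀ z ∉ K, Ψ z 1 Complex.I = f z) →
      Integrable (fun z => Ψ z 1 Complex.I) μ ∧
        ‖∫ z, f z ∂μ‖ ≤ C * ∫ z, ‖Ψ z 1 Complex.I‖ ∂μ := by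
  classical
  obtain ⟨η, hη, hch⟩ := change_small μ hK
  obtain ⟨Lx, hLx⟩ := hx.lipschitzWith_of_hasCompactSupport (HasCompactSupport.intro hK x0)
    one_ne_zero
  obtain ⟨Ly, hLy⟩ := hy.lipschitzWith_of_hasCompactSupport (HasCompactSupport.intro hK y0)
    one_ne_zero
  obtain ⟨D, hD, D1, D2, Dr⟩ := exists_jac hx hy
  obtain ⟨C, hC⟩ := hK.exists_bound_of_continuousOn
    (hD.comp (Continuous.prodMk_left (1, Complex.I))).continuousOn
  refine ⟨max C 1, by positivity, fun f Ψ hf hΨ Ψ1 Ψ2 Ψr Ψ0 => ?_⟩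
  set δ := η / (Lx + Ly + 1) with hδ
  have δ0 : 0 < δ := by positivity
  have hg : Continuous fun p : X × ℂ × ℂ => D p.1 p.2.1 p.2.2 * Ψ p.1 p.2.1 p.2.2 := hD.mul hΨ
  have small : ∀ s t : ℝ, |s| < δ → |t| < δ →
      ∫ z in K, D z s t * Ψ z s t ∂μ = ∫ z in K, f z ∂μ := fun s t hs ht => by
    have e : ∀ z, HasFDerivAt (fun z => s • x z + t • y z)
        (s • fderiv ℝ x z + t • fderiv ℝ y z) z := fun z =>
      (((hx.differentiable one_ne_zero) z).hasFDerivAt.const_smul s).add
        (((hy.differentiable one_ne_zero) z).hasFDerivAt.const_smul t)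
    rw [hch (fun z => s • x z + t • y z) (fun z => (e z).differentiableAt) (fun z => ?_)
      (fun z hz => by simp [x0 z hz, y0 z hz]) f]
    · refine integral_congr_ae (Eventually.of_forall fun z => ?_)
      simp only [(e z).fderiv, Dr, Ψr, Complex.real_smul]
    · rw [(e z).fderiv]
      refine (norm_add_le _ _).trans ?_
      rw [norm_smul, norm_smul, Real.norm_eq_abs, Real.norm_eq_abs]
      have a1 := norm_fderiv_le_of_lipschitz ℝ (x₀ := z) hLx
      have a2 := norm_fderiv_le_of_lipschitz ℝ (x₀ := z) hLy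
      calc _ ≤ δ * Lx + δ * Ly := by gcongr
        _ ≤ δ * (Lx + Ly + 1) := by nlinarith
        _ = η := by rw [hδ]; field_simp
  have step1 : ∀ t : ℝ, |t| < δ → ∫ z in K, D z 1 t * Ψ z 1 t ∂μ = ∫ z in K, f z ∂μ :=
    fun t ht => const_of_real (h := fun s => ∫ z in K, D z s t * Ψ z s t ∂μ)
      (entire_integral μ hK (g := fun z s => D z s t * Ψ z s t)
        (hg.comp (continuous_fst.prodMk (continuous_snd.prodMk continuous_const)))
        fun z => (D1 z t).mul (Ψ1 z t)) δ0 (fun s hs => small s t hs ht) 1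
  have step2 : ∫ z in K, D z 1 Complex.I * Ψ z 1 Complex.I ∂μ = ∫ z in K, f z ∂μ :=
    const_of_real (h := fun t => ∫ z in K, D z 1 t * Ψ z 1 t ∂μ)
      (entire_integral μ hK (g := fun z t => D z 1 t * Ψ z 1 t)
        (hg.comp (continuous_fst.prodMk (continuous_const.prodMk continuous_snd)))
        fun z => (D2 z 1).mul (Ψ2 z 1)) δ0 step1 _
  have i1 : IntegrableOn (fun z => Ψ z 1 Complex.I) K μ :=
    (hΨ.comp (Continuous.prodMk_left (1, Complex.I))).continuousOn.integrableOn_compact hK
  have i2 : IntegrableOn (fun z => Ψ z 1 Complex.I) Kᶜ μ :=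
    hf.integrableOn.congr_fun (fun z hz => (Ψ0 z hz).symm) hK.measurableSet.compl
  have i3 : Integrable (fun z => Ψ z 1 Complex.I) μ := by
    rw [← integrableOn_univ, ← union_compl_self K]; exact i1.union i2
  refine ⟨i3, ?_⟩
  rw [← integral_add_compl hK.measurableSet hf, ← integral_add_compl hK.measurableSet i3.norm,
    ← step2, mul_add, ← integral_const_mul, ← integral_const_mul]
  refine (norm_add_le _ _).trans (add_le_add ?_ ?_)
  · refine norm_integral_le_of_norm_le (i1.norm.const_mul _)
      ((ae_restrict_iff' hK.measurableSet).2 (Eventually.of_forall fun z hz => ?_))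
    rw [norm_mul]
    exact mul_le_mul_of_nonneg_right ((hC z hz).trans (le_max_left _ _)) (norm_nonneg _)
  · refine norm_integral_le_of_norm_le (i2.norm.const_mul _)
      ((ae_restrict_iff' hK.measurableSet.compl).2 (Eventually.of_forall fun z hz => ?_))
    rw [Ψ0 z hz]
    exact le_mul_of_one_le_left (norm_nonneg _) (le_max_right _ _)

end Pool.Agent.MP_47bb2a_mp.H97
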