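import Mathlib

/-! The objects of the constrained de Finetti problem. -/

open scoped ComplexOrder Matrix MatrixOrder Kronecker
open MeasureTheory

namespace Pool.Agent.MP_47bb2a_mp.H97

/-- Density operators. -/
def IsState {ι : Type*} [Fintype ι] (ρ : Matrix ι ι ℂ) : Prop := ρ.PosSemidef ∧ ρ.trace = 1

/-- The set of density operators on `ℂ^ι`. -/
def States (ι : Type*) [Fintype ι] : Type _ := {ρ : Matrix ι ι ℂ // IsState ρ}

instance (ι : Type*) [Fintype ι] : TopologicalSpace (States ι) :=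
  inferInstanceAs (TopologicalSpace {ρ : Matrix ι ι ℂ // IsState ρ})

/-- The Borel sigma-algebra on the set of density operators. -/
instance (ι : Type*) [Fintype ι] : MeasurableSpace (States ι) := borel _

/-- The `n`-th tensor power of a matrix. -/
def tp {ι ι' : Type*} (n : ℕ) (M : Matrix ι ι' ℂ) : Matrix (Fin n → ι) (Fin n → ι') ℂ :=
  Matrix.of fun x y => ∏ i, M (x i) (y i)

variable {A B : Type*} {n : ℕ}

/-- The tensor product of an operator on `A^n` and an operator on `B^n`, as an operator on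
`(AB)^n`. -/
def cut (α : Matrix (Fin n → A) (Fin n → A) ℂ) (β : Matrix (Fin n → B) (Fin n → B) ℂ) :
    Matrix (Fin n → A × B) (Fin n → A × B) ℂ :=
  Matrix.of fun x y =>
    α (fun i => (x i).1) (fun i => (y i).1) * β (fun i => (x i).2) (fun i => (y i).2)

/-- States on `(AB)^n` that are separable across the cut `A^n : B^n`. -/
def Sep (A B : Type*) [Fintype A] [Fintype B] (n : ℕ) :
    Set (Matrix (Fin n → A × B) (Fin n → A × B) ℂ) :=
  convexHull ℝ {σ | ∃ α β, IsState α ∧ IsState β ∧ σ = cut α β}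

/-- Separable states on a single copy of `AB`. -/
def Sep1 (A B : Type*) [Fintype A] [Fintype B] : Set (Matrix (A × B) (A × B) ℂ) :=
  convexHull ℝ {σ | ∃ α β, IsState α ∧ IsState β ∧ σ = α ⊗ₖ β}

/-- Transposition of the factor `A` of an operator on `AB`. -/
def pt (M : Matrix (A × B) (A × B) ℂ) : Matrix (A × B) (A × B) ℂ :=
  Matrix.of fun x y => M (y.1, x.2) (x.1, y.2)

/-- Transposition of the factor `A^n` of an operator on `(AB)^n`. -/
def ptn (M : Matrix (Fin n → A × B) (Fin n → A × B) ℂ) :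
    Matrix (Fin n → A × B) (Fin n → A × B) ℂ :=
  Matrix.of fun x y => M (fun i => ((y i).1, (x i).2)) fun i => ((x i).1, (y i).2)

/-- The trace norm `Tr √(M† M)`. -/
noncomputable def traceNorm {ι : Type*} [Fintype ι] [DecidableEq ι] (M : Matrix ι ι ℂ) : ℝ :=
  (CFC.sqrt (Mᴴ * M)).trace.re

/-- Invariance under permutations of the `n` copies. -/
def Symm {ι : Type*} (σ : Matrix (Fin n → ι) (Fin n → ι) ℂ) : Prop :=
  ∀ (g : Equiv.Perm (Fin n)) (x y : Fin n → ι), σ (x ∘ g) (y ∘ g) = σ x y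

open Classical in
/-- Relative entropy `Tr ρ (log ρ - log σ)`, infinite unless the kernel of `σ` is contained in
the kernel of `ρ`. -/
noncomputable def relEnt {ι : Type*} [Fintype ι] [DecidableEq ι] (ρ σ : Matrix ι ι ℂ) : EReal :=
  if ∀ v, σ *ᵥ v = 0 → ρ *ᵥ v = 0 then
    ((ρ * (cfc Real.log ρ - cfc Real.log σ)).trace.re : ℝ)
  else ⊤

/-- Relative entropy of entanglement across the cut `A^n : B^n`. -/
noncomputable def relEntSep [Fintype A] [Fintype B] [DecidableEq A] [DecidableEq B]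
    (ρ : Matrix (Fin n → A × B) (Fin n → A × B) ℂ) : EReal :=
  ⨅ τ ∈ Sep A B n, relEnt ρ τ

/-- `σ ≤ ∫ w(ω) ω^{⊗ n} dμ(ω)`, the integral being taken entrywise and convergent. -/
def Dominated {ι : Type*} [Fintype ι] (μ : Measure (States ι)) (w : States ι → ℝ)
    (σ : Matrix (Fin n → ι) (Fin n → ι) ℂ) : Prop :=
  (∀ x y, Integrable (fun ω : States ι => (w ω : ℂ) * tp n ω.1 x y) μ) ∧
    (Matrix.of (fun x y => ∫ ω : States ι, (w ω : ℂ) * tp n ω.1 x y ∂μ) - σ).PosSemidef

end Pool.Agent.MP_47bb2a_mp.H97
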