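import Pool.Agent.MP_47bb2a_mp.H97.Tensor

/-! A duality lemma for cone programs over matrices. -/

open scoped ComplexOrder MatrixOrder ComplexConjugate
open Matrix

namespace Pool.Agent.MP_47bb2a_mp.H97

variable {ι : Type*} [Fintype ι]

theorem tr_nonneg' {ρ M : Matrix ι ι ℂ} (hρ : ρ.PosSemidef) (hM : ∀ v, 0 ≤ q M v) :
    0 ≤ (ρ * M).trace.re := by
  obtain ⟨B, rfl⟩ := exists_ct hρ
  rw [Matrix.mul_assoc, trace_mul_comm, trace, Complex.re_sum]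
  refine Finset.sum_nonneg fun i _ => (hM (star (B i))).trans_eq ?_
  simp only [q, star_star, diag_apply, mul_apply, dotProduct, mulVec, conjTranspose_apply,
    Finset.mul_sum, Finset.sum_mul, Pi.star_apply, mul_assoc]

theorem q_ct (M : Matrix ι ι ℂ) (v : ι → ℂ) : q Mᴴ v = q M v := by
  rw [q, q, ← Complex.conj_re, ← RCLike.star_def, ← star_dotProduct_star, star_star, star_mulVec,
    conjTranspose_conjTranspose, ← dotProduct_mulVec]

theorem exists_rep (g : Matrix ι ι ℂ →ₗ[ℝ] ℝ) :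
    ∃ G : Matrix ι ι ℂ, ∀ Y, (G * Y).trace.re = g Y := by
  classical
  refine ⟨of fun j i => g (single i j 1) - Complex.I * g (single i j Complex.I), fun Y => ?_⟩
  conv_rhs => rw [matrix_eq_sum_single Y]
  simp only [trace, diag_apply, mul_apply, of_apply, Complex.re_sum, map_sum]
  rw [Finset.sum_comm]
  refine Finset.sum_congr rfl fun i _ => Finset.sum_congr rfl fun j _ => ?_
  have : single i j (Y i j) = (Y i j).re • single i j (1 : ℂ) + (Y i j).im • single i j Complex.I := by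
    rw [smul_single, smul_single, ← single_add]
    simp
  rw [this, map_add, map_smul, map_smul]
  simp
  ring

theorem hb (𝒦 : Set (Matrix ι ι ℂ × ℝ)) (hadd : ∀ p ∈ 𝒦, ∀ p' ∈ 𝒦, p + p' ∈ 𝒦)
    (hsmul : ∀ c : ℝ, 0 < c → ∀ p ∈ 𝒦, c • p ∈ 𝒦) (h0 : (0, 0) ∈ 𝒦)
    (hbig : ∀ r : ℝ, ∃ p ∈ 𝒦, ∀ v, r * nsq v ≤ q p.1 v) {ρ₀ : Matrix ι ι ℂ} (hρ₀ : ρ₀.PosSemidef)
    (hρ₀' : ∀ p ∈ 𝒦, (ρ₀ * p.1).trace.re ≤ p.2) (X : Matrix ι ι ℂ) :
    ∃ ρ : Matrix ι ι ℂ, ρ.PosSemidef ∧ (∀ p ∈ 𝒦, (ρ * p.1).trace.re ≤ p.2) ∧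
      ∀ ε > 0, ∃ p ∈ 𝒦, (∀ v, q X v ≤ q p.1 v) ∧ p.2 ≤ (ρ * X).trace.re + ε := by
  let S : Matrix ι ι ℂ → Set ℝ := fun Y => {s | ∃ p ∈ 𝒦, (∀ v, q Y v ≤ q p.1 v) ∧ p.2 = s}
  have hne : ∀ Y, (S Y).Nonempty := fun Y => by
    obtain ⟨p, h1, h2⟩ := hbig (N1 Y)
    exact ⟨_, p, h1, fun v => (q_le_N1 Y v).trans (h2 v), rfl⟩
  have hbd : ∀ Y, BddBelow (S Y) := fun Y => ⟨(ρ₀ * Y).trace.re, by
    rintro _ ⟨p, h1, h2, rfl⟩
    have := tr_nonneg' (M := p.1 - Y) hρ₀ fun v => by rw [q_sub]; exact sub_nonneg.2 (h2 v)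
    rw [Matrix.mul_sub, trace_sub, Complex.sub_re] at this
    linarith [hρ₀' p h1]⟩
  let N : Matrix ι ι ℂ → ℝ := fun Y => sInf (S Y)
  have Nle : ∀ Y, ∀ p ∈ 𝒦, (∀ v, q Y v ≤ q p.1 v) → N Y ≤ p.2 := fun Y p h1 h2 =>
    csInf_le (hbd Y) ⟨p, h1, h2, rfl⟩
  have Nadd : ∀ Y Z, N (Y + Z) ≤ N Y + N Z := fun Y Z => by
    rw [← sub_le_iff_le_add]
    refine le_csInf (hne Y) ?_
    rintro _ ⟨p, h1, h2, rfl⟩
    rw [sub_le_comm]
    refine le_csInf (hne Z) ?_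
    rintro _ ⟨p', h1', h2', rfl⟩
    have := Nle (Y + Z) _ (hadd p h1 p' h1') fun v => by
      rw [Prod.fst_add, q_add, q_add]; exact add_le_add (h2 v) (h2' v)
    rw [Prod.snd_add] at this
    linarith
  have Nsm : ∀ c : ℝ, 0 < c → ∀ Y, N (c • Y) ≤ c * N Y := fun c hc Y => by
    rw [← div_le_iff₀' hc]
    refine le_csInf (hne Y) ?_
    rintro _ ⟨p, h1, h2, rfl⟩
    rw [div_le_iff₀' hc]
    exact Nle _ _ (hsmul c hc p h1) fun v => by
      rw [Prod.smul_fst, q_rsmul, q_rsmul]; exact mul_le_mul_of_nonneg_left (h2 v) hc.le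
  have Nhom : ∀ c : ℝ, 0 < c → ∀ Y, N (c • Y) = c * N Y := fun c hc Y => by
    refine (Nsm c hc Y).antisymm ?_
    have := Nsm c⁻¹ (inv_pos.2 hc) (c • Y)
    rwa [inv_smul_smul₀ hc.ne', inv_mul_eq_div, le_div_iff₀' hc] at this
  have N0 : N 0 = 0 := by
    have := Nhom 2 two_pos 0
    rw [smul_zero] at this
    linarith
  obtain ⟨g, g1, g2⟩ := exists_extension_of_le_sublinear
    (LinearPMap.mkSpanSingleton' X (N X) fun c hc => by
      rcases smul_eq_zero.1 hc with rfl | rfl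
      · simp
      · simp [N0]) N Nhom Nadd (by
      rintro ⟨_, hY⟩
      obtain ⟨c, rfl⟩ := Submodule.mem_span_singleton.1 hY
      rw [LinearPMap.mkSpanSingleton'_apply]
      rcases lt_trichotomy c 0 with h | rfl | h
      · have := Nadd (c • X) ((-c) • X)
        rw [← add_smul, add_neg_cancel, zero_smul, N0, Nhom _ (neg_pos.2 h)] at this
        simp only [RingHom.id_apply, smul_eq_mul]
        linarith
      · simp [N0]
      · simp [Nhom c h])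
  have gX : g X = N X := (g1 ⟨X, Submodule.mem_span_singleton_self X⟩).trans
    (LinearPMap.mkSpanSingleton'_apply_self _ _ _ _)
  have gneg : ∀ Y, (∀ v, 0 ≤ q Y v) → 0 ≤ g Y := fun Y h => by
    have := (g2 (-Y)).trans (Nle _ _ h0 fun v => by rw [q_neg, q_zero]; linarith [h v])
    rw [map_neg] at this
    linarith
  have gct : ∀ Y, g Yᴴ = g Y := fun Y => by
    have a1 := gneg (Yᴴ - Y) fun v => by rw [q_sub, q_ct, sub_self]
    have a2 := gneg (Y - Yᴴ) fun v => by rw [q_sub, q_ct, sub_self]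
    rw [map_sub] at a1 a2
    linarith
  obtain ⟨G, hG⟩ := exists_rep g
  have hρ : ∀ Y, (((1 / 2 : ℝ) • (G + Gᴴ)) * Y).trace.re = g Y := fun Y => by
    have : (Gᴴ * Y).trace.re = g Y := by
      rw [← gct, ← hG, ← Complex.conj_re, ← RCLike.star_def, ← trace_conjTranspose,
        conjTranspose_mul, conjTranspose_conjTranspose, trace_mul_comm]
    rw [Matrix.smul_mul, trace_smul, Matrix.add_mul, trace_add, Complex.smul_re, Complex.add_re,
      this, hG, smul_eq_mul]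
    ring
  refine ⟨(1 / 2 : ℝ) • (G + Gᴴ), psd_of_q ?_ fun v => ?_, fun p hp => ?_, fun ε hε => ?_⟩
  · simp [IsHermitian, conjTranspose_smul, add_comm]
  · rw [← tr_vecMulVec, hρ]
    exact gneg _ (q_nonneg (posSemidef_vecMulVec_self_star v))
  · rw [hρ]
    exact (g2 _).trans (Nle _ p hp fun _ => le_rfl)
  · obtain ⟨_, ⟨p, h1, h2, rfl⟩, h3⟩ := Real.lt_sInf_add_pos (hne X) hε
    exact ⟨p, h1, h2, by rw [hρ, gX]; exact h3.le⟩

end Pool.Agent.MP_47bb2a_mp.H97
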