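import Pool.Agent.MP_47bb2a_mp.H97.Core

/-! A universal measure. -/

open scoped ComplexOrder MatrixOrder ComplexConjugate Topology
open Matrix Filter MeasureTheory Real

namespace Pool.Agent.MP_47bb2a_mp.H97

variable {ι : Type*} [Fintype ι] [DecidableEq ι] {C : Set (Matrix ι ι ℂ)} {c : ℝ}

omit [DecidableEq ι] in
theorem entry_le {ω : Matrix ι ι ℂ} (h : ω.PosSemidef) (h1 : ω.trace.re ≤ 1) (i j : ι) :
    ‖ω i j‖ ≤ 1 := by
  obtain ⟨B, rfl⟩ := exists_ct h
  rw [nsq_uncurry, Complex.ofReal_re, nsq, Fintype.sum_prod_type_right] at h1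
  have h2 : ∀ i, nsq (fun k => B k i) ≤ 1 := fun i =>
    (Finset.single_le_sum (f := fun i => nsq fun k => B k i) (fun _ _ => nsq_nonneg _)
      (Finset.mem_univ i)).trans h1
  have h3 := (cs (fun k => B k i) fun k => B k j).trans
    (mul_le_one₀ (h2 i) (nsq_nonneg _) (h2 j))
  exact (sq_le_one_iff₀ (norm_nonneg _)).1 h3

theorem Base.net [Nonempty ι] (h : Base C c) : ∃ (ω : ℕ → States ι) (t : ℕ → ℝ),
    (∀ j, 0 ≤ t j ∧ t j • (ω j).1 ∈ C) ∧ ∀ ε : ℝ, 0 < ε → ε ≤ 1 → ∃ J : Finset ℕ, ∀ τ ∈ C,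
      ∃ j ∈ J, (t j • (ω j).1 - (1 - ε) • τ).PosSemidef := by
  have hc := h.pos
  have : SecondCountableTopology (Matrix ι ι ℂ) :=
    inferInstanceAs (SecondCountableTopology (ι → ι → ℂ))
  have one_tr : 0 < (c • (1 : Matrix ι ι ℂ)).trace.re := by
    have : (0 : ℝ) < Fintype.card ι := by exact_mod_cast Fintype.card_pos
    simpa using mul_pos hc this
  have : Nonempty {τ : Matrix ι ι ℂ // τ ∈ C ∧ 0 < τ.trace.re} := ⟨⟨_, h.one, one_tr⟩⟩
  have : SecondCountableTopology {τ : Matrix ι ι ℂ // τ ∈ C ∧ 0 < τ.trace.re} :=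
    TopologicalSpace.Subtype.secondCountableTopology {τ : Matrix ι ι ℂ | τ ∈ C ∧ 0 < τ.trace.re}
  obtain ⟨u, hu⟩ := TopologicalSpace.exists_dense_seq {τ : Matrix ι ι ℂ // τ ∈ C ∧ 0 < τ.trace.re}
  have e : ∀ j, (u j).1.trace.re • ((u j).1.trace.re⁻¹ • (u j).1) = (u j).1 := fun j =>
    smul_inv_smul₀ (u j).2.2.ne' _
  refine ⟨fun j => ⟨(u j).1.trace.re⁻¹ • (u j).1, psd_rsmul (h.psd _ (u j).2.1)
    (inv_pos.2 (u j).2.2).le, ?_⟩, fun j => (u j).1.trace.re,
    fun j => ⟨(u j).2.2.le, by rw [e]; exact (u j).2.1⟩, fun ε ε0 ε1 => ?_⟩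
  · have h1 := (Complex.nonneg_iff.1 (h.psd _ (u j).2.1).trace_nonneg).2
    refine Complex.ext ?_ ?_
    · simp [inv_mul_cancel₀ (u j).2.2.ne']
    · simp [← h1]
  have hK : IsCompact {X : Matrix ι ι ℂ | ∀ i j, ‖X i j‖ ≤ 1} := by
    have h1 := isCompact_univ_pi fun _ : ι => isCompact_univ_pi fun _ : ι =>
      isCompact_closedBall (0 : ℂ) 1
    have h2 : {X : ι → ι → ℂ | ∀ i j, ‖X i j‖ ≤ 1} = Set.univ.pi fun _ : ι =>
        Set.univ.pi fun _ : ι => Metric.closedBall (0 : ℂ) 1 := by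
      ext X
      simp [Set.mem_pi]
    exact h2 ▸ h1
  have hA : IsCompact (closure (Set.range fun j => (u j).1)) :=
    hK.closure_of_subset (by
      rintro _ ⟨j, rfl⟩
      exact entry_le (h.psd _ (u j).2.1) (h.tr _ (u j).2.1))
  obtain ⟨J, hJ⟩ := hA.elim_finite_subcover (fun j => {X | N1 (X - (u j).1) < ε * c})
    (fun j => isOpen_lt (continuous_N1.comp (continuous_id.sub continuous_const)) continuous_const)
    fun X hX => by
      obtain ⟨_, h1, j, rfl⟩ := mem_closure_iff.1 hX {Y | N1 (X - Y) < ε * c}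
        (isOpen_lt (continuous_N1.comp (continuous_const.sub continuous_id)) continuous_const)
        (by simpa [N1] using mul_pos ε0 hc)
      exact Set.mem_iUnion.2 ⟨j, h1⟩
  refine ⟨J, fun τ hτ => ?_⟩
  have h1 : (1 - ε) • τ + ε • c • (1 : Matrix ι ι ℂ) ∈ C :=
    h.convex hτ h.one (by linarith) ε0.le (by ring)
  have h2 : 0 < ((1 - ε) • τ + ε • c • (1 : Matrix ι ι ℂ)).trace.re := by
    have := (Complex.nonneg_iff.1 (h.psd _ hτ).trace_nonneg).1
    rw [trace_add, trace_smul, trace_smul ε, Complex.add_re, Complex.smul_re, Complex.smul_re]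
    exact add_pos_of_nonneg_of_pos (mul_nonneg (by linarith) this) (mul_pos ε0 one_tr)
  have h3 : (1 - ε) • τ + ε • c • (1 : Matrix ι ι ℂ) ∈ closure (Set.range fun j => (u j).1) :=
    map_mem_closure (f := Subtype.val) continuous_subtype_val (hu ⟨_, h1, h2⟩)
      (by rintro _ ⟨j, rfl⟩; exact ⟨j, rfl⟩)
  obtain ⟨j, hj, h4⟩ := Set.mem_iUnion₂.1 (hJ h3)
  refine ⟨j, hj, ?_⟩
  rw [e]
  refine psd_of_q ((h.psd _ (u j).2.1).1.sub (herm_rsmul (h.psd _ hτ).1 _)) fun v => ?_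
  have h5 := (q_le_N1 _ v).trans (mul_le_mul_of_nonneg_right (le_of_lt h4) (nsq_nonneg v))
  rw [q_sub, q_add, q_rsmul ε, q_rsmul c, q_one] at h5
  rw [q_sub]
  linarith

omit [DecidableEq ι] in
theorem integrable_of_bdd {E : Type*} [NormedAddCommGroup E] [MeasurableSpace E] [BorelSpace E]
    [SecondCountableTopology E] (ω : ℕ → States ι) (ν : Measure ℕ) [IsFiniteMeasure ν]
    {f : States ι → E} {B : ℝ} (hf : ∀ x, ‖f x‖ ≤ B) : Integrable f (ν.map ω) := by
  have : BorelSpace (States ι) := ⟨rfl⟩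
  have : T1Space (States ι) := inferInstanceAs (T1Space {ρ : Matrix ι ι ℂ // IsState ρ})
  have hm : MeasurableSet (Set.range ω) := (Set.countable_range ω).measurableSet
  refine Integrable.of_bound (AEMeasurable.aestronglyMeasurable
    ⟨(Set.range ω).indicator f, measurable_zero.measurable_of_countable_ne
      ((Set.countable_range ω).mono fun x hx => by
        by_contra h
        exact hx (Set.indicator_of_notMem h f).symm), ?_⟩) B (Eventually.of_forall hf)
  have : ∀ᵐ x ∂(ν.map ω), x ∈ Set.range ω :=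
    (ae_map_iff Measurable.of_discrete.aemeasurable hm).2 (Eventually.of_forall fun j => ⟨j, rfl⟩)
  exact this.mono fun x hx => (Set.indicator_of_mem hx f).symm

theorem Base.dominated [Nonempty ι] (h : Base C c) :
    ∃ μ : Measure (States ι), IsProbabilityMeasure μ ∧ (∀ᵐ ω ∂μ, ∃ t : ℝ, t • ω.1 ∈ C) ∧
      ∀ Δ > (0 : ℝ), ∃ N : ℕ, ∀ n, N ≤ n → ∀ w : States ι → ℝ, (∀ ω, 0 ≤ w ω) → (∃ B, ∀ ω, w ω ≤ B) →
        (∀ (ω : States ι) (t : ℝ), 0 ≤ t → t • ω.1 ∈ C → rexp (n * Δ) * t ^ n ≤ w ω) →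
        ∀ σ : Matrix (Fin n → ι) (Fin n → ι) ℂ, σ.PosSemidef → Symm σ →
          (∀ G, Polar C G → (tp n G * σ).trace.re ≤ 1) → Dominated μ w σ := by
  obtain ⟨ω, t, ht, hnet⟩ := h.net
  have : BorelSpace (States ι) := ⟨rfl⟩
  have : T1Space (States ι) := inferInstanceAs (T1Space {ρ : Matrix ι ι ℂ // IsState ρ})
  let ν := ProbabilityTheory.geometricMeasure ⟨1 / 2, by norm_num, by norm_num⟩
  have hν : ∀ j, 0 < (ν.map ω).real {ω j} := fun j => by
    rw [map_measureReal_apply Measurable.of_discrete (measurableSet_singleton _)]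
    exact (ProbabilityTheory.geometricMeasure_real_singleton_pos
      (fun h => by simpa using congrArg Subtype.val h)
      (fun h => by have := congrArg Subtype.val h; norm_num at this) j).trans_le
      (measureReal_mono (by simp) (measure_ne_top _ _))
  refine ⟨ν.map ω, Measure.isProbabilityMeasure_map Measurable.of_discrete.aemeasurable,
    ((ae_map_iff Measurable.of_discrete.aemeasurable (Set.countable_range ω).measurableSet).2
      (Eventually.of_forall fun j => ⟨j, rfl⟩)).mono (by rintro _ ⟨j, rfl⟩; exact ⟨_, (ht j).2⟩),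
    fun Δ hΔ => ?_⟩
  obtain ⟨N₁, hN₁⟩ := core h (show 0 < Δ / 3 by positivity)
  obtain ⟨J, hJ⟩ := hnet (1 - rexp (-(Δ / 3))) (by simpa using hΔ)
    (by linarith [Real.exp_pos (-(Δ / 3))])
  have hev : ∀ᶠ n : ℕ in atTop, ∀ j ∈ J, ((ν.map ω).real {ω j})⁻¹ ≤ rexp (n * (Δ / 3)) :=
    (eventually_all_finset J).2 fun j _ => (tendsto_exp_atTop.comp
      (tendsto_natCast_atTop_atTop.atTop_mul_const (by positivity))).eventually_ge_atTop _
  obtain ⟨N₂, hN₂⟩ := eventually_atTop.1 hev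
  refine ⟨max N₁ N₂, fun n hn w w0 ⟨B, wB⟩ hw σ hσ hs hG => ?_⟩
  have hi : ∀ x y, Integrable (fun ρ : States ι => (w ρ : ℂ) * tp n ρ.1 x y) (ν.map ω) :=
    fun x y => integrable_of_bdd ω ν (B := B) fun ρ => by
      rw [norm_mul, Complex.norm_real, Real.norm_of_nonneg (w0 ρ)]
      refine (mul_le_of_le_one_right (w0 ρ) ?_).trans (wB ρ)
      exact entry_le (tp_psd ρ.2.1) (by rw [tp_trace, ρ.2.2]; simp) x y
  refine ⟨hi, psd_of_q (IsHermitian.sub ?_ hσ.1) fun v => ?_⟩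
  · ext x y
    simp only [conjTranspose_apply, of_apply, RCLike.star_def, ← integral_conj, map_mul,
      Complex.conj_ofReal]
    exact integral_congr_ae (Eventually.of_forall fun ρ =>
      congrArg _ ((tp_psd (n := n) ρ.2.1).1.apply x y))
  have e1 : ∀ ρ : States ι, w ρ * q (tp n ρ.1) v =
      (∑ x, ∑ y, star v x * ((w ρ : ℂ) * tp n ρ.1 x y * v y)).re := fun ρ => by
    rw [← q_rsmul]
    simp [q, dotProduct, mulVec, Finset.mul_sum]
  have hi2 : Integrable (fun ρ : States ι =>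
      ∑ x, ∑ y, star v x * ((w ρ : ℂ) * tp n ρ.1 x y * v y)) (ν.map ω) :=
    integrable_finsetSum _ fun x _ => integrable_finsetSum _ fun y _ =>
      ((hi x y).mul_const _).const_mul _
  have hi3 : Integrable (fun ρ : States ι => w ρ * q (tp n ρ.1) v) (ν.map ω) := by
    simp only [e1]; exact hi2.re
  have e2 : q (of fun x y => ∫ ρ : States ι, (w ρ : ℂ) * tp n ρ.1 x y ∂(ν.map ω)) v =
      ∫ ρ : States ι, w ρ * q (tp n ρ.1) v ∂(ν.map ω) := by
    simp only [e1]
    refine Eq.trans (congrArg Complex.re ?_) (integral_re hi2).symm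
    rw [integral_finsetSum _ fun x _ => integrable_finsetSum _ fun y _ =>
      ((hi x y).mul_const _).const_mul _]
    refine Finset.sum_congr rfl fun x _ => ?_
    rw [integral_finsetSum _ fun y _ => ((hi x y).mul_const _).const_mul _]
    simp only [integral_const_mul, integral_mul_const, mulVec, dotProduct, of_apply, Finset.mul_sum]
  rw [q_sub, e2, sub_nonneg]
  set I := ∫ ρ : States ι, w ρ * q (tp n ρ.1) v ∂(ν.map ω) with hI
  refine (hN₁ n (le_of_max_le_left hn) σ hσ hs hG v (rexp (-(n * (Δ / 3))) * I)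
    fun τ hτ => ?_).trans (le_of_eq ?_)
  · obtain ⟨j, hj, h1⟩ := hJ τ hτ
    rw [sub_sub_cancel] at h1
    have a1 := q_le (tp_mono (n := n) (psd_rsmul (h.psd τ hτ) (Real.exp_pos _).le) h1) v
    rw [tp_rsmul, tp_rsmul, q_rsmul, q_rsmul, ← Real.exp_nat_mul] at a1
    have a2 := setIntegral_le_integral (s := {ω j}) hi3 (Eventually.of_forall fun ρ =>
      mul_nonneg (w0 ρ) (q_nonneg (tp_psd ρ.2.1) v))
    rw [integral_singleton, smul_eq_mul, ← le_inv_mul_iff₀ (hν j), ← hI] at a2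
    have a3 := hw (ω j) (t j) (ht j).1 (ht j).2
    have a4 := q_nonneg (tp_psd (n := n) (ω j).2.1) v
    have I0 : 0 ≤ I := integral_nonneg fun ρ => mul_nonneg (w0 ρ) (q_nonneg (tp_psd ρ.2.1) v)
    have a5 := hN₂ n (le_of_max_le_right hn) j hj
    refine le_of_mul_le_mul_left (a := rexp (n * Δ) * rexp (n * -(Δ / 3))) ?_ (by positivity)
    calc _ = rexp (n * Δ) * (rexp (n * -(Δ / 3)) * q (tp n τ) v) := by ring
      _ ≤ rexp (n * Δ) * (t j ^ n * q (tp n (ω j).1) v) := by gcongr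
      _ ≤ w (ω j) * q (tp n (ω j).1) v := by rw [← mul_assoc]; gcongr
      _ ≤ rexp (n * (Δ / 3)) * I := a2.trans (by gcongr)
      _ = _ := by
          rw [← mul_assoc, ← Real.exp_add, ← Real.exp_add]
          congr 2
          ring
  · rw [← mul_assoc, ← Real.exp_add, add_neg_cancel, Real.exp_zero, one_mul]

end Pool.Agent.MP_47bb2a_mp.H97
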