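import Pool.Agent.MP_47bb2a_mp.H97.Dual

/-! A trace inequality for contractions. -/

open scoped ComplexOrder MatrixOrder ComplexConjugate
open Matrix

namespace Pool.Agent.MP_47bb2a_mp.H97

variable {ι : Type*} [Fintype ι] [DecidableEq ι]

open scoped Matrix.Norms.L2Operator in
theorem exists_povm {U : Matrix ι ι ℂ} (hU : U ∈ unitary (Matrix ι ι ℂ)) :
    ∃ (T : Finset ℂ) (P : ℂ → Matrix ι ι ℂ), (∀ z ∈ T, ‖z‖ = 1 ∧ (P z).PosSemidef) ∧
      ∑ z ∈ T, P z = 1 ∧ ∑ z ∈ T, z • P z = U := by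
  have hn : IsStarNormal U := isStarNormal_of_mem_unitary hU
  have hf := U.finite_spectrum
  have hc : ∀ f : ℂ → ℂ, ContinuousOn f (spectrum ℂ U) := fun f => hf.continuousOn f
  refine ⟨hf.toFinset, fun z => cfc (fun x : ℂ => if x = z then (1 : ℂ) else 0) U,
    fun z hz => ⟨spectrum.norm_eq_one_of_unitary hU (hf.mem_toFinset.1 hz), ?_⟩, ?_, ?_⟩
  · have : cfc (fun x : ℂ => if x = z then (1 : ℂ) else 0) U =
        (cfc (fun x : ℂ => if x = z then (1 : ℂ) else 0) U)ᴴ *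
          cfc (fun x : ℂ => if x = z then (1 : ℂ) else 0) U := by
      rw [← star_eq_conjTranspose, ← cfc_star, ← cfc_mul _ _ _ (hc _) (hc _)]
      exact cfc_congr fun x _ => by by_cases h : x = z <;> simp [h]
    beta_reduce
    rw [this]
    exact posSemidef_conjTranspose_mul_self _
  · rw [← cfc_sum _ _ _ fun _ _ => hc _, ← cfc_one ℂ U]
    exact cfc_congr fun x hx => by simp [Finset.sum_apply, hx]
  · simp only [← cfc_const_mul _ _ _ (hc _)]
    rw [← cfc_sum _ _ _ fun _ _ => hc _]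
    refine Eq.trans (cfc_congr fun x hx => ?_) (cfc_id ℂ U)
    simp [Finset.sum_apply, hx]

theorem tr_unitary {U X S : Matrix ι ι ℂ} (hU : U ∈ unitary (Matrix ι ι ℂ))
    (h : ∀ z : ℂ, ‖z‖ = 1 → ∀ v, q (z • X) v ≤ q S v) : (U * X).trace.re ≤ S.trace.re := by
  obtain ⟨T, P, h1, h2, h3⟩ := exists_povm hU
  rw [← Matrix.one_mul S, ← h2, ← h3, Finset.sum_mul, Finset.sum_mul, trace_sum, trace_sum,
    Complex.re_sum, Complex.re_sum]
  refine Finset.sum_le_sum fun z hz => ?_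
  have := tr_nonneg' (M := S - z • X) (h1 z hz).2 fun v => by
    rw [q_sub]; exact sub_nonneg.2 (h z (h1 z hz).1 v)
  rw [Matrix.mul_sub, trace_sub, Complex.sub_re, Matrix.mul_smul] at this
  rw [Matrix.smul_mul]
  linarith

theorem exists_unitary {D : Matrix ι ι ℂ} (h1 : (1 + D).PosSemidef) (h2 : (1 - D).PosSemidef) :
    ∃ W ∈ unitary (Matrix ι ι ℂ), D = (1 / 2 : ℝ) • (W + Wᴴ) := by
  have hD : D.IsHermitian := by simpa using h1.1.sub isHermitian_one
  have h3 : (1 - D * D).PosSemidef := by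
    have := psd_rsmul ((h1.conjTranspose_mul_mul_same (1 - D)).add
      (h2.conjTranspose_mul_mul_same (1 + D))) (c := 1 / 2) (by norm_num)
    convert this using 1
    rw [h1.1.eq, h2.1.eq]
    simp only [Matrix.mul_add, Matrix.add_mul, Matrix.mul_sub, Matrix.sub_mul, Matrix.one_mul,
      Matrix.mul_one]
    module
  have h4 : Commute (CFC.sqrt (1 - D * D)) D :=
    Commute.cfcₙ_nnreal ((Commute.one_left D).sub_left ((Commute.refl D).mul_left (Commute.refl D))) _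
  have h5 := CFC.sqrt_mul_sqrt_self _ h3.nonneg
  have h6 := (CFC.sqrt_nonneg (1 - D * D)).posSemidef.1.eq
  set R := CFC.sqrt (1 - D * D)
  have h7 : (D + Complex.I • R)ᴴ = D - Complex.I • R := by
    rw [conjTranspose_add, conjTranspose_smul, hD.eq, h6]
    simp [sub_eq_add_neg]
  refine ⟨D + Complex.I • R, ?_, ?_⟩
  · rw [Unitary.mem_iff, star_eq_conjTranspose, h7]
    simp only [Matrix.mul_add, Matrix.add_mul, Matrix.mul_sub, Matrix.sub_mul, Matrix.mul_smul,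
      Matrix.smul_mul, smul_smul, Complex.I_mul_I, h5, h4.eq, smul_sub, smul_add]
    constructor <;> module
  · rw [h7]
    module

theorem tr_contr {V X S : Matrix ι ι ℂ}
    (hV : ∀ x y, 2 * (star x ⬝ᵥ V *ᵥ y).re ≤ nsq x + nsq y)
    (h : ∀ z : ℂ, ‖z‖ = 1 → ∀ v, q (z • X) v ≤ q S v) : (V * X).trace.re ≤ S.trace.re := by
  have hq : ∀ v, q (fromBlocks 0 V Vᴴ 0) v = 2 * (star (v ∘ Sum.inl) ⬝ᵥ V *ᵥ (v ∘ Sum.inr)).re ∧
      nsq v = nsq (v ∘ Sum.inl) + nsq (v ∘ Sum.inr) := fun v => by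
    refine ⟨?_, by simp [nsq]⟩
    have e : (star (v ∘ Sum.inr) ⬝ᵥ Vᴴ *ᵥ (v ∘ Sum.inl)).re =
        (star (v ∘ Sum.inl) ⬝ᵥ V *ᵥ (v ∘ Sum.inr)).re := by
      rw [← Complex.conj_re, ← RCLike.star_def, ← star_dotProduct_star, star_star, star_mulVec,
        conjTranspose_conjTranspose, ← dotProduct_mulVec]
    rw [q, fromBlocks_mulVec, two_mul]
    nth_rewrite 2 [← e]
    simp [dotProduct]
  have hH : (fromBlocks 0 V Vᴴ 0).IsHermitian := by simp [IsHermitian, fromBlocks_conjTranspose]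
  obtain ⟨W, hW, e⟩ := exists_unitary (D := fromBlocks 0 V Vᴴ 0)
    (psd_of_q (isHermitian_one.add hH) fun v => by
      have := hV (-(v ∘ Sum.inl)) (v ∘ Sum.inr)
      rw [q_add, q_one, (hq v).1, (hq v).2]
      simp only [star_neg, neg_dotProduct, Complex.neg_re, nsq, Pi.neg_apply, norm_neg] at this ⊢
      linarith)
    (psd_of_q (isHermitian_one.sub hH) fun v => by
      rw [q_sub, q_one, (hq v).1, (hq v).2]
      linarith [hV (v ∘ Sum.inl) (v ∘ Sum.inr)])
  have hJ : (fromBlocks 0 1 1 0 : Matrix (ι ⊕ ι) (ι ⊕ ι) ℂ) ∈ unitary _ := by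
    simp [Unitary.mem_iff, star_eq_conjTranspose, fromBlocks_conjTranspose, fromBlocks_multiply]
  have hb : ∀ (Y : Matrix ι ι ℂ) (v : ι ⊕ ι → ℂ),
      q (fromBlocks Y 0 0 0) v = q Y (v ∘ Sum.inl) := fun Y v => by
    simp [q, fromBlocks_mulVec, dotProduct]
  have key : ∀ U ∈ unitary (Matrix (ι ⊕ ι) (ι ⊕ ι) ℂ),
      (U * (fromBlocks 0 1 1 0 * fromBlocks X 0 0 0)).trace.re ≤ S.trace.re := fun U hU => by
    rw [← Matrix.mul_assoc]
    refine (tr_unitary (S := fromBlocks S 0 0 0) (mul_mem hU hJ) fun z hz v => ?_).trans_eq ?_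
    · rw [fromBlocks_smul, smul_zero, hb, hb]
      exact h z hz _
    · simp [trace]
  have a1 := key W hW
  have a2 := key _ (Unitary.star_mem hW)
  have a3 : (V * X).trace = (fromBlocks 0 V Vᴴ 0 * (fromBlocks 0 1 1 0 * fromBlocks X 0 0 0) :
      Matrix (ι ⊕ ι) (ι ⊕ ι) ℂ).trace := by
    simp [fromBlocks_multiply, trace]
  rw [a3, e, Matrix.smul_mul, Matrix.add_mul, trace_smul, trace_add, Complex.smul_re,
    Complex.add_re, smul_eq_mul]
  rw [star_eq_conjTranspose] at a2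
  linarith

end Pool.Agent.MP_47bb2a_mp.H97
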