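import Pool.Agent.MP_47bb2a_mp.H97.Sep

/-! The negativity weight. -/

open scoped ComplexOrder MatrixOrder ComplexConjugate Kronecker Topology
open Matrix MeasureTheory Real Filter

namespace Pool.Agent.MP_47bb2a_mp.H97

variable {ι A B : Type*} [Fintype ι] [Fintype A] [Fintype B] {n : ℕ}

theorem tp_add_psd {X Z : Matrix ι ι ℂ} (hX : X.PosSemidef) (hZ : Z.PosSemidef) :
    (tp n (X + Z) + tp n (X - Z)).PosSemidef := by
  have e : ∀ c : ℝ, tp n (X + c • Z) = ∑ S : Finset (Fin n),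
      c ^ Sᶜ.card • tpF (S.piecewise (fun _ => X) fun _ => Z) := fun c => by
    ext x y
    simp only [tp, tpF, of_apply, Matrix.add_apply, Matrix.smul_apply, Fintype.prod_add,
      Matrix.sum_apply, Complex.real_smul, Finset.prod_mul_distrib, Finset.prod_const]
    refine Finset.sum_congr rfl fun S _ => ?_
    rw [← Finset.prod_mul_prod_compl S fun i => S.piecewise (fun _ => X) (fun _ => Z) i (x i) (y i),
      Finset.prod_congr (f := fun i => S.piecewise (fun _ => X) (fun _ => Z) i (x i) (y i))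
        (g := fun i => X (x i) (y i)) rfl fun i (hi : i ∈ S) => by
          rw [Finset.piecewise_eq_of_mem _ _ _ hi],
      Finset.prod_congr (f := fun i => S.piecewise (fun _ => X) (fun _ => Z) i (x i) (y i))
        (g := fun i => Z (x i) (y i)) (s₁ := Sᶜ) rfl fun i hi => by
          rw [Finset.piecewise_eq_of_notMem _ _ _ (Finset.mem_compl.1 hi)]]
    push_cast
    ring
  have e1 := e 1
  have e2 := e (-1)
  rw [one_smul] at e1
  rw [neg_one_smul, ← sub_eq_add_neg] at e2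
  rw [e1, e2, ← Finset.sum_add_distrib]
  refine posSemidef_sum _ fun S _ => ?_
  rw [← add_smul]
  refine psd_rsmul (tpF_psd fun i => ?_) ?_
  · by_cases h : i ∈ S <;> simp [Finset.piecewise, h, hX, hZ]
  · rcases neg_one_pow_eq_or ℝ Sᶜ.card with h | h <;> simp [h]

theorem tr_pt (X Y : Matrix (A × B) (A × B) ℂ) : (pt X * Y).trace = (X * pt Y).trace := by
  simp only [trace, diag_apply, mul_apply, ← Fintype.sum_prod_type']
  exact Fintype.sum_equiv (Function.Involutive.toPerm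
    (fun p : (A × B) × A × B => ((p.2.1, p.1.2), (p.1.1, p.2.2))) fun _ => rfl) _ _ fun _ => rfl

theorem tr_ptn (X Y : Matrix (Fin n → A × B) (Fin n → A × B) ℂ) :
    (ptn X * Y).trace = (X * ptn Y).trace := by
  simp only [trace, diag_apply, mul_apply, ← Fintype.sum_prod_type']
  exact Fintype.sum_equiv (Function.Involutive.toPerm
    (fun p : (Fin n → A × B) × (Fin n → A × B) =>
      (fun i => ((p.2 i).1, (p.1 i).2), fun i => ((p.1 i).1, (p.2 i).2))) fun _ => rfl) _ _
    fun _ => rfl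

omit [Fintype A] [Fintype B] in
theorem pt_herm {M : Matrix (A × B) (A × B) ℂ} (h : M.IsHermitian) : (pt M).IsHermitian :=
  Matrix.ext fun _ _ => h.apply _ _

omit [Fintype A] [Fintype B] in
theorem ptn_herm {M : Matrix (Fin n → A × B) (Fin n → A × B) ℂ} (h : M.IsHermitian) :
    (ptn M).IsHermitian := Matrix.ext fun _ _ => h.apply _ _

theorem sep_ptn {σ : Matrix (Fin n → A × B) (Fin n → A × B) ℂ} (h : σ ∈ Sep A B n) :
    IsState (ptn σ) := by
  refine convexHull_min (t := {σ | IsState (ptn σ)}) ?_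
    (fun _ h _ h' _ _ a b e => convex_state h h' a b e) h
  rintro _ ⟨α, β, h1, h2, rfl⟩
  exact sep_state (subset_convexHull _ _
    ⟨αᵀ, β, ⟨h1.1.transpose, (trace_transpose α).trans h1.2⟩, h2, rfl⟩)

variable [DecidableEq ι] [DecidableEq A] [DecidableEq B]

omit [Fintype A] [Fintype B] in
theorem pt_one : pt (1 : Matrix (A × B) (A × B) ℂ) = 1 := by
  ext x y
  simp [pt, one_apply, Prod.ext_iff, eq_comm]

theorem traceNorm_eq {M : Matrix ι ι ℂ} (h : M.IsHermitian) :
    traceNorm M = (cfc (fun x : ℝ => |x|) M).trace.re :=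
  congrArg (fun X : Matrix ι ι ℂ => X.trace.re) (CFC.abs_eq_cfc_norm M h.isSelfAdjoint)

theorem traceNorm_psd {M : Matrix ι ι ℂ} (h : M.PosSemidef) : traceNorm M = M.trace.re :=
  congrArg (fun X : Matrix ι ι ℂ => X.trace.re) (CFC.abs_of_nonneg M h.nonneg)

theorem tr_le_traceNorm {M H : Matrix ι ι ℂ} (h : M.IsHermitian) {r : ℝ}
    (h1 : (r • 1 + H).PosSemidef) (h2 : (r • 1 - H).PosSemidef) :
    (H * M).trace.re ≤ r * traceNorm M := by
  have hc : ∀ f : ℝ → ℝ, ContinuousOn f (spectrum ℝ M) := M.finite_real_spectrum.continuousOn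
  have a1 : M ≤ cfc (fun x : ℝ => |x|) M := by
    conv_lhs => rw [← cfc_id' ℝ M h.isSelfAdjoint]
    exact cfc_mono (fun x _ => le_abs_self x) (hc _) (hc _)
  have a2 : -M ≤ cfc (fun x : ℝ => |x|) M := by
    conv_lhs => rw [← cfc_id' ℝ M h.isSelfAdjoint, ← cfc_neg]
    exact cfc_mono (fun x _ => neg_le_abs x) (hc _) (hc _)
  have b1 := tr_nonneg h1 a1
  have b2 := tr_nonneg h2 a2
  rw [traceNorm_eq h]
  simp only [Matrix.mul_sub, Matrix.sub_mul, Matrix.add_mul, Matrix.smul_mul, Matrix.one_mul,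
    Matrix.mul_neg, trace_sub, trace_add, trace_neg, trace_smul, Complex.sub_re, Complex.add_re,
    Complex.neg_re, Complex.smul_re, smul_eq_mul] at b1 b2
  linarith

theorem exists_sign {M : Matrix ι ι ℂ} (h : M.IsHermitian) : ∃ H : Matrix ι ι ℂ,
    (1 + H).PosSemidef ∧ (1 - H).PosSemidef ∧ (H * M).trace.re = traceNorm M := by
  have hc : ∀ f : ℝ → ℝ, ContinuousOn f (spectrum ℝ M) := M.finite_real_spectrum.continuousOn
  have hs := h.isSelfAdjoint
  refine ⟨cfc (fun x : ℝ => if 0 ≤ x then 1 else -1) M, ?_, ?_, ?_⟩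
  · rw [← cfc_one ℝ M, ← cfc_add _ _ _ (hc _) (hc _)]
    exact (cfc_nonneg fun x _ => by split_ifs <;> simp).posSemidef
  · exact cfc_le_one (fun x : ℝ => if 0 ≤ x then 1 else -1) M fun x _ => by split_ifs <;> simp
  · rw [traceNorm_eq h]
    conv_lhs => enter [1, 1, 2]; rw [← cfc_id' ℝ M]
    rw [← cfc_mul _ _ _ (hc _) (hc _)]
    congr 2
    refine cfc_congr fun x _ => ?_
    split_ifs with hx
    · simp [abs_of_nonneg hx]
    · simp [abs_of_neg (not_le.1 hx)]

/-- Positive operators whose transpose on the first factor has trace norm at most one. -/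
def Rains (A B : Type*) [Fintype A] [Fintype B] [DecidableEq A] [DecidableEq B] :
    Set (Matrix (A × B) (A × B) ℂ) :=
  {τ | τ.PosSemidef ∧ ∀ H : Matrix (A × B) (A × B) ℂ, (1 + H).PosSemidef → (1 - H).PosSemidef →
    (H * pt τ).trace.re ≤ 1}

theorem base_rains [Nonempty A] [Nonempty B] :
    Base (Rains A B) (Fintype.card (A × B) : ℝ)⁻¹ where
  convex _ h _ h' _ _ a b e := ⟨convex_psd h.1 h'.1 a b e, fun H h1 h2 =>
    convex_tr H (h.2 H h1 h2) (h'.2 H h1 h2) a b e⟩
  psd _ h := h.1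
  tr τ h := by
    have := h.2 1 (PosSemidef.one.add PosSemidef.one) (by simpa using PosSemidef.zero)
    rwa [← tr_pt, pt_one, Matrix.one_mul] at this
  pos := by have := @Fintype.card_pos (A × B); positivity
  one := ⟨one_state.1, fun H _ h2 => by
    have h3 := tr_nonneg h2 (one_state (ι := A × B)).1
    have e : pt ((Fintype.card (A × B) : ℝ)⁻¹ • (1 : Matrix (A × B) (A × B) ℂ)) =
        (Fintype.card (A × B) : ℝ)⁻¹ • pt 1 := rfl
    rwa [Matrix.sub_mul, trace_sub, Complex.sub_re, Matrix.one_mul, one_state.2, sub_nonneg,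
      ← pt_one, ← e] at h3⟩

theorem rains_bound {G : Matrix (A × B) (A × B) ℂ} (hG : Polar (Rains A B) G)
    {σ : Matrix (Fin n → A × B) (Fin n → A × B) ℂ} (h : σ.PosSemidef)
    (h' : traceNorm (ptn σ) ≤ 1) : (tp n G * σ).trace.re ≤ 1 := by
  obtain ⟨ρ, r1, r2, r3⟩ := hb {p : Matrix (A × B) (A × B) ℂ × ℝ | 0 ≤ p.2 ∧
      (p.2 • 1 + pt p.1).PosSemidef ∧ (p.2 • 1 - pt p.1).PosSemidef}
    (fun p h p' h' => ⟨add_nonneg h.1 h'.1, by
      convert h.2.1.add h'.2.1 using 1
      rw [Prod.snd_add, add_smul, add_add_add_comm]; rfl, by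
      convert h.2.2.add h'.2.2 using 1
      rw [Prod.snd_add, add_smul, ← add_sub_add_comm]; rfl⟩)
    (fun c hc p h => ⟨mul_nonneg hc.le h.1, by
      convert psd_rsmul h.2.1 hc.le using 1
      rw [smul_add, smul_smul]; rfl, by
      convert psd_rsmul h.2.2 hc.le using 1
      rw [smul_sub, smul_smul]; rfl⟩)
    (by
      have : pt (0 : Matrix (A × B) (A × B) ℂ) = 0 := rfl
      simpa [this] using PosSemidef.zero)
    (fun r => ⟨(|r| • 1, |r|), by
      have : pt (|r| • (1 : Matrix (A × B) (A × B) ℂ)) = |r| • pt 1 := rfl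
      have h1 := psd_rsmul (PosSemidef.one (n := A × B) (R := ℂ)) (abs_nonneg r)
      refine ⟨abs_nonneg r, ?_, ?_⟩ <;> simp only [this, pt_one, sub_self]
      exacts [h1.add h1, PosSemidef.zero], fun v => by
        rw [q_rsmul, q_one]; exact mul_le_mul_of_nonneg_right (le_abs_self r) (nsq_nonneg v)⟩)
    PosSemidef.zero (fun p h => by simpa using h.1) G
  have h1 := hG.2 ρ ⟨r1, fun H a1 a2 => by
    rw [← tr_pt, trace_mul_comm]
    exact r2 (pt H, 1) ⟨zero_le_one, by rwa [one_smul], by rwa [one_smul]⟩⟩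
  have key : ∀ ε > (0 : ℝ), (tp n G * σ).trace.re ≤ (1 + ε) ^ n := fun ε hε => by
    obtain ⟨⟨K, r⟩, ⟨r0, a1, a2⟩, a3, a4⟩ := r3 ε hε
    simp only at r0 a1 a2 a3 a4
    have hK : K.IsHermitian := pt_herm (M := pt K) (by
      simpa using a1.1.sub (herm_rsmul isHermitian_one r))
    have b1 := tr_mono h (tp_mono (n := n) hG.1 (psd_of_q (hK.sub hG.1.1) fun v => by
      rw [q_sub]; exact sub_nonneg.2 (a3 v)))
    have e1 : (1 / 2 : ℝ) • (r • 1 + pt K) + (1 / 2 : ℝ) • (r • 1 - pt K) = r • 1 := by module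
    have e2 : (1 / 2 : ℝ) • (r • 1 + pt K) - (1 / 2 : ℝ) • (r • 1 - pt K) = pt K := by module
    have c1 := psd_rsmul a1 (c := 1 / 2) (by norm_num)
    have c2 := psd_rsmul a2 (c := 1 / 2) (by norm_num)
    have d1 := tp_add_psd (n := n) c1 c2
    have d2 := tp_sub_psd (n := n) c1 c2 (c := -1) (by simp)
    rw [neg_one_smul, ← sub_eq_add_neg] at d2
    rw [e1, e2, tp_rsmul, tp_one] at d1 d2
    have b2 := tr_le_traceNorm (ptn_herm h.1) d1 d2
    rw [← tr_ptn] at b2
    rw [trace_mul_comm σ, trace_mul_comm σ] at b1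
    rw [trace_mul_comm] at a4
    refine b1.trans (b2.trans ((mul_le_of_le_one_right (by positivity) h').trans ?_))
    gcongr
    linarith
  have : Tendsto (fun ε : ℝ => (1 + ε) ^ n) (𝓝[>] 0) (𝓝 ((1 + 0) ^ n)) :=
    (Continuous.tendsto (by fun_prop) _).mono_left nhdsWithin_le_nhds
  simpa using ge_of_tendsto this (eventually_nhdsWithin_of_forall key)

theorem dominated_neg [Nonempty A] [Nonempty B] :
    ∃ μ : Measure (States (A × B)), IsProbabilityMeasure μ ∧ ∀ Δ > (0 : ℝ), ∃ N : ℕ, ∀ n, N ≤ n →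
      ∀ σ, (σ ∈ Sep A B n ∨ σ.PosSemidef ∧ traceNorm (ptn σ) ≤ 1) → Symm σ →
        Dominated μ (fun ω => rexp (-(n * Real.log (traceNorm (pt ω.1))) + n * Δ)) σ := by
  obtain ⟨μ, h1, -, h2⟩ := (base_rains (A := A) (B := B)).dominated
  refine ⟨μ, h1, fun Δ hΔ => (h2 Δ hΔ).imp fun N hN n hn σ hσ hs => ?_⟩
  have h3 : σ.PosSemidef ∧ traceNorm (ptn σ) ≤ 1 := hσ.elim (fun h => ⟨(sep_state h).1, by
    rw [traceNorm_psd (sep_ptn h).1, (sep_ptn h).2, Complex.one_re]⟩) id
  have lb : ∀ ω : States (A × B), 1 ≤ traceNorm (pt ω.1) := fun ω => by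
    have := tr_le_traceNorm (r := 1) (H := 1) (pt_herm ω.2.1.1)
      (by rw [one_smul]; exact PosSemidef.one.add PosSemidef.one) (by simpa using PosSemidef.zero)
    rwa [← tr_pt, pt_one, Matrix.one_mul, ω.2.2, one_mul] at this
  refine hN n hn _ (fun _ => (Real.exp_pos _).le) ⟨rexp (n * Δ), fun ω => ?_⟩
    (fun ω t t0 ht => ?_) σ h3.1 hs fun G hG => rains_bound hG h3.1 h3.2
  · have := mul_nonneg n.cast_nonneg (Real.log_nonneg (lb ω))
    gcongr
    linarith
  · obtain ⟨H, a1, a2, a3⟩ := exists_sign (pt_herm ω.2.1.1)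
    have a4 := ht.2 H a1 a2
    have e : pt (t • ω.1) = t • pt ω.1 := rfl
    have p := one_pos.trans_le (lb ω)
    rw [e, Matrix.mul_smul, trace_smul, Complex.smul_re, a3, smul_eq_mul, ← le_div_iff₀ p] at a4
    rw [Real.exp_add, Real.exp_neg, Real.exp_nat_mul (Real.log _), Real.exp_log p, mul_comm, ← inv_pow,
      ← one_div]
    gcongr

end Pool.Agent.MP_47bb2a_mp.H97
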