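import Pool.Agent.MP_47bb2a_mp.H97.Dual

/-! Smooth selection of nearly supporting tests. -/

open scoped ComplexOrder MatrixOrder ComplexConjugate Manifold Topology
open Matrix Filter

namespace Pool.Agent.MP_47bb2a_mp.H97

variable {ι : Type*} [Fintype ι] [DecidableEq ι]

/-- A convex set of subnormalised states containing a multiple of the identity. -/
structure Base (C : Set (Matrix ι ι ℂ)) (c : ℝ) : Prop where
  convex : Convex ℝ C
  psd : ∀ ω ∈ C, ω.PosSemidef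
  tr : ∀ ω ∈ C, ω.trace.re ≤ 1
  pos : 0 < c
  one : c • (1 : Matrix ι ι ℂ) ∈ C

/-- Tests with value at most one on `C`. -/
def Polar (C : Set (Matrix ι ι ℂ)) (G : Matrix ι ι ℂ) : Prop :=
  G.PosSemidef ∧ ∀ ω ∈ C, (G * ω).trace.re ≤ 1

/-- `X ≤ s ω` for some `ω ∈ C`. -/
def Below (C : Set (Matrix ι ι ℂ)) (X : Matrix ι ι ℂ) (s : ℝ) : Prop :=
  ∃ ω ∈ C, (s • ω - X).PosSemidef

variable {C : Set (Matrix ι ι ℂ)} {c : ℝ}

theorem Base.comb (h : Base C c) {ω ω' : Matrix ι ι ℂ} (h1 : ω ∈ C) (h2 : ω' ∈ C) {s s' : ℝ}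
    (hs : 0 ≤ s) (hs' : 0 ≤ s') : ∃ ω'' ∈ C, s • ω + s' • ω' = (s + s') • ω'' := by
  rcases (add_nonneg hs hs').eq_or_lt with h0 | h0
  · obtain rfl : s = 0 := by linarith
    obtain rfl : s' = 0 := by linarith
    exact ⟨ω, h1, by simp⟩
  · refine ⟨_, h.convex h1 h2 (div_nonneg hs h0.le) (div_nonneg hs' h0.le)
      (by rw [← add_div, div_self h0.ne']), ?_⟩
    rw [smul_add, smul_smul, smul_smul, mul_div_cancel₀ _ h0.ne', mul_div_cancel₀ _ h0.ne']

theorem Below.mono (h : Base C c) {X : Matrix ι ι ℂ} {s s' : ℝ} (hX : Below C X s)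
    (hs : s ≤ s') : Below C X s' := by
  obtain ⟨ω, h1, h2⟩ := hX
  refine ⟨ω, h1, ?_⟩
  convert h2.add (psd_rsmul (h.psd ω h1) (sub_nonneg.2 hs)) using 1
  rw [sub_smul]
  abel

theorem Below.add (h : Base C c) {X Y : Matrix ι ι ℂ} {s s' : ℝ} (hX : Below C X s)
    (hY : Below C Y s') (hs : 0 ≤ s) (hs' : 0 ≤ s') : Below C (X + Y) (s + s') := by
  obtain ⟨ω, h1, h2⟩ := hX
  obtain ⟨ω', h1', h2'⟩ := hY
  obtain ⟨ω'', h3, h4⟩ := h.comb h1 h1' hs hs'
  refine ⟨ω'', h3, ?_⟩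
  convert h2.add h2' using 1
  rw [← h4]
  abel

omit [Fintype ι] [DecidableEq ι] in
theorem herm_rsmul {M : Matrix ι ι ℂ} (h : M.IsHermitian) (c : ℝ) : (c • M).IsHermitian := by
  rw [IsHermitian, conjTranspose_smul, h.eq, star_trivial]

theorem Base.below (h : Base C c) {X : Matrix ι ι ℂ} (hX : X.IsHermitian) {r : ℝ}
    (hr : ∀ v, q X v ≤ r * nsq v) : Below C X (r / c) :=
  ⟨_, h.one, psd_of_q ((herm_rsmul (herm_rsmul isHermitian_one _) _).sub hX) fun v => by
    rw [q_sub, q_rsmul, q_rsmul, q_one, ← mul_assoc, div_mul_cancel₀ _ h.pos.ne']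
    linarith [hr v]⟩

theorem Base.cover (h : Base C c) {X : Matrix ι ι ℂ} (hX : X.IsHermitian) {ε : ℝ} (hε : 0 < ε) :
    ∃ G, Polar C G ∧ Below C X ((G * X).trace.re + ε) := by
  obtain ⟨G, g1, g2, g3⟩ := hb {p | 0 ≤ p.2 ∧ ∃ ω ∈ C, p.1 = p.2 • ω}
    (by
      rintro p ⟨a1, ω, a2, a3⟩ p' ⟨b1, ω', b2, b3⟩
      obtain ⟨ω'', h3, h4⟩ := h.comb a2 b2 a1 b1
      exact ⟨add_nonneg a1 b1, ω'', h3, by rw [Prod.fst_add, a3, b3, h4]; rfl⟩)
    (by
      rintro r hr p ⟨a1, ω, a2, a3⟩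
      exact ⟨mul_nonneg hr.le a1, ω, a2, by rw [Prod.smul_fst, a3, smul_smul]; rfl⟩)
    ⟨le_rfl, _, h.one, by simp⟩
    (fun r => ⟨((|r| / c) • c • 1, |r| / c), ⟨div_nonneg (abs_nonneg r) h.pos.le, _, h.one, rfl⟩,
      fun v => by
        rw [q_rsmul, q_rsmul, q_one, ← mul_assoc, div_mul_cancel₀ _ h.pos.ne']
        exact mul_le_mul_of_nonneg_right (le_abs_self r) (nsq_nonneg v)⟩)
    PosSemidef.zero (fun p hp => by simpa using hp.1) X
  obtain ⟨p, ⟨-, ω, a2, a3⟩, a4, a5⟩ := g3 ε hε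
  refine ⟨G, ⟨g1, fun ω hω => g2 (ω, 1) ⟨zero_le_one, ω, hω, by simp⟩⟩,
    Below.mono h ⟨ω, a2, psd_of_q ((herm_rsmul (h.psd ω a2).1 _).sub hX) fun v => ?_⟩ a5⟩
  rw [q_sub, ← a3]
  linarith [a4 v]

/-- A vector indexed by pairs as a matrix. -/
def mat (z : ι × ι → ℂ) : Matrix ι ι ℂ := of fun i j => z (i, j)

omit [Fintype ι] [DecidableEq ι] in
theorem continuous_mat : Continuous (mat : (ι × ι → ℂ) → Matrix ι ι ℂ) :=
  continuous_matrix fun i j => continuous_apply (i, j)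

omit [DecidableEq ι] in
theorem continuous_nsq : Continuous (nsq : (ι → ℂ) → ℝ) := by unfold nsq; fun_prop

theorem Base.select (h : Base C c) {ε : ℝ} (hε : 0 < ε) (R : ℝ) :
    ∃ G : (ι × ι → ℂ) → ι × ι → ℂ, ContDiff ℝ 1 G ∧ ∀ z, Polar C (mat (G z)) ∧
      (nsq z ≤ R → Below C (mat z * (mat z)ᴴ)
        ((mat (G z) * (mat z * (mat z)ᴴ)).trace.re + ε)) ∧ (R + 1 ≤ nsq z → G z = 0) := by
  obtain ⟨g, hg⟩ := exists_contMDiffMap_forall_mem_convex_of_local_const (n := 1)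
    𝓘(ℝ, ι × ι → ℂ) (t := fun z : ι × ι → ℂ => {G : ι × ι → ℂ | Polar C (mat G) ∧
      (nsq z ≤ R → Below C (mat z * (mat z)ᴴ) ((mat G * (mat z * (mat z)ᴴ)).trace.re + ε)) ∧
      (R + 1 ≤ nsq z → G = 0)}) (by
      rintro z G ⟨⟨a1, a2⟩, a3, a4⟩ G' ⟨⟨b1, b2⟩, b3, b4⟩ s t hs ht hst
      have e : ∀ Y, (mat (s • G + t • G') * Y).trace.re =
          s * (mat G * Y).trace.re + t * (mat G' * Y).trace.re := fun Y => by
        rw [show mat (s • G + t • G') = s • mat G + t • mat G' from rfl]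
        simp [Matrix.add_mul]
      refine ⟨⟨(psd_rsmul a1 hs).add (psd_rsmul b1 ht), fun ω hω => ?_⟩, fun hz => ?_,
        fun hz => by simp [a4 hz, b4 hz]⟩
      · rw [e]
        nlinarith [a2 ω hω, b2 ω hω]
      · rw [e]
        obtain rfl : t = 1 - s := by linarith
        rcases le_total (mat G * (mat z * (mat z)ᴴ)).trace.re
          (mat G' * (mat z * (mat z)ᴴ)).trace.re with h1 | h1
        · exact (a3 hz).mono h (by nlinarith)
        · exact (b3 hz).mono h (by nlinarith)) (by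
      intro z₀
      have hK : Continuous fun z : ι × ι → ℂ => mat z * (mat z)ᴴ :=
        continuous_mat.matrix_mul continuous_mat.matrix_conjTranspose
      rcases le_or_gt (nsq z₀) R with h0 | h0
      · obtain ⟨G, g1, g2⟩ := h.cover (isHermitian_mul_conjTranspose_self (mat z₀))
          (show 0 < ε / 3 by positivity)
        have e1 : ∀ᶠ z in 𝓝 z₀, nsq z < R + 1 :=
          continuous_nsq.continuousAt.eventually (gt_mem_nhds (by linarith))
        have e2 : ∀ᶠ z in 𝓝 z₀, N1 (mat z * (mat z)ᴴ - mat z₀ * (mat z₀)ᴴ) < ε / 3 * c :=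
          (continuous_N1.comp (hK.sub continuous_const)).continuousAt.eventually
            (gt_mem_nhds (by simpa [N1] using mul_pos (show 0 < ε / 3 by positivity) h.pos))
        have e3 : ∀ᶠ z in 𝓝 z₀, (G * (mat z₀ * (mat z₀)ᴴ)).trace.re - ε / 3 <
            (G * (mat z * (mat z)ᴴ)).trace.re :=
          (Complex.continuous_re.comp
            (continuous_const.matrix_mul hK).matrix_trace).continuousAt.eventually
            (lt_mem_nhds (by simp; positivity))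
        refine ⟨fun k => G k.1 k.2, ?_⟩
        filter_upwards [e1, e2, e3] with z z1 z2 z3
        refine ⟨g1, fun _ => ?_, fun hz => absurd hz (not_le.2 z1)⟩
        have a1 := h.below ((isHermitian_mul_conjTranspose_self (mat z)).sub
          (isHermitian_mul_conjTranspose_self (mat z₀))) (r := ε / 3 * c) fun v =>
            (q_le_N1 _ v).trans (mul_le_mul_of_nonneg_right z2.le (nsq_nonneg v))
        rw [mul_div_cancel_right₀ _ h.pos.ne'] at a1
        have a2 := g2.add h a1 (add_nonneg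
          (tr_nonneg g1.1 (posSemidef_self_mul_conjTranspose _)) (by positivity)) (by positivity)
        rw [add_sub_cancel] at a2
        exact a2.mono h (by
          show _ ≤ (G * (mat z * (mat z)ᴴ)).trace.re + ε
          linarith)
      · refine ⟨0, ?_⟩
        filter_upwards [continuous_nsq.continuousAt.eventually (lt_mem_nhds h0)] with z hz
        exact ⟨⟨PosSemidef.zero, fun ω _ => by
          rw [show mat (0 : ι × ι → ℂ) = 0 from rfl]; simp⟩,
          fun h1 => absurd h1 (not_le.2 hz), fun _ => rfl⟩)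
  exact ⟨g, contMDiff_iff_contDiff.1 g.contMDiff, hg⟩

end Pool.Agent.MP_47bb2a_mp.H97
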