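import Pool.Agent.MP_47bb2a_mp.H97.Defs

/-! Tensor products of matrices and quadratic forms. -/

open scoped ComplexOrder MatrixOrder ComplexConjugate
open Matrix

namespace Pool.Agent.MP_47bb2a_mp.H97

variable {ι ι' ι'' : Type*} {n : ℕ}

/-- Tensor product of a family of matrices. -/
def tpF (M : Fin n → Matrix ι ι' ℂ) : Matrix (Fin n → ι) (Fin n → ι') ℂ :=
  Matrix.of fun x y => ∏ i, M i (x i) (y i)

theorem tp_eq (M : Matrix ι ι' ℂ) : tp n M = tpF fun _ => M := rfl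

theorem tpF_mul [Fintype ι'] (M : Fin n → Matrix ι ι' ℂ) (N : Fin n → Matrix ι' ι'' ℂ) :
    tpF M * tpF N = tpF fun i => M i * N i := by
  ext x y
  simp only [tpF, mul_apply, of_apply, Fintype.prod_sum, Finset.prod_mul_distrib]

theorem tpF_ct (M : Fin n → Matrix ι ι' ℂ) : (tpF M)ᴴ = tpF fun i => (M i)ᴴ := by
  ext x y
  simp [tpF]

theorem tpF_trace [Fintype ι] (M : Fin n → Matrix ι ι ℂ) :
    (tpF M).trace = ∏ i, (M i).trace := by
  simp only [tpF, trace, diag_apply, of_apply, Fintype.prod_sum]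

theorem tp_mul [Fintype ι'] (M : Matrix ι ι' ℂ) (N : Matrix ι' ι'' ℂ) :
    tp n M * tp n N = tp n (M * N) := tpF_mul _ _

theorem tp_ct (M : Matrix ι ι' ℂ) : (tp n M)ᴴ = tp n Mᴴ := tpF_ct _

theorem tp_trace [Fintype ι] (M : Matrix ι ι ℂ) : (tp n M).trace = M.trace ^ n := by
  rw [tp_eq, tpF_trace]; simp

theorem tp_smul (c : ℂ) (M : Matrix ι ι' ℂ) : tp n (c • M) = c ^ n • tp n M := by
  ext x y
  simp [tp, Finset.prod_mul_distrib]

theorem tp_rsmul (c : ℝ) (M : Matrix ι ι' ℂ) : tp n (c • M) = c ^ n • tp n M := by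
  ext x y
  simp [tp, Finset.prod_mul_distrib]

theorem tp_one [DecidableEq ι] : tp n (1 : Matrix ι ι ℂ) = 1 := by
  ext x y
  simp only [tp, of_apply, one_apply, Finset.prod_boole, funext_iff, Finset.mem_univ, true_imp_iff]

theorem tp_symm (M : Matrix ι ι ℂ) : Symm (tp n M) := fun g x y =>
  Equiv.prod_comp g fun i => M (x i) (y i)

variable [Fintype ι]

theorem exists_sq {M : Matrix ι ι ℂ} (h : M.PosSemidef) :
    ∃ B : Matrix ι ι ℂ, B.PosSemidef ∧ M = B * B := by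
  classical
  exact ⟨CFC.sqrt M, (CFC.sqrt_nonneg M).posSemidef, (CFC.sqrt_mul_sqrt_self M h.nonneg).symm⟩

theorem exists_ct {M : Matrix ι ι ℂ} (h : M.PosSemidef) : ∃ B : Matrix ι ι ℂ, M = Bᴴ * B := by
  obtain ⟨B, h1, h2⟩ := exists_sq h
  exact ⟨B, by rwa [h1.1.eq]⟩

theorem tpF_psd {M : Fin n → Matrix ι ι ℂ} (h : ∀ i, (M i).PosSemidef) : (tpF M).PosSemidef := by
  choose B hB using fun i => exists_ct (h i)
  rw [funext hB, ← tpF_mul, ← tpF_ct]
  exact posSemidef_conjTranspose_mul_self _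

theorem tp_psd {M : Matrix ι ι ℂ} (h : M.PosSemidef) : (tp n M).PosSemidef := tpF_psd fun _ => h

theorem psd_rsmul {M : Matrix ι ι ℂ} (h : M.PosSemidef) {c : ℝ} (hc : 0 ≤ c) :
    (c • M).PosSemidef := h.smul hc

theorem tp_sub_psd {X Z : Matrix ι ι ℂ} (hX : X.PosSemidef) (hZ : Z.PosSemidef) {c : ℝ}
    (hc : |c| ≤ 1) : (tp n (X + Z) - tp n (X + c • Z)).PosSemidef := by
  have e : ∀ c : ℝ, tp n (X + c • Z) = ∑ S : Finset (Fin n),
      c ^ Sᶜ.card • tpF (S.piecewise (fun _ => X) fun _ => Z) := fun c => by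
    ext x y
    simp only [tp, tpF, of_apply, Matrix.add_apply, Matrix.smul_apply, Fintype.prod_add,
      Matrix.sum_apply, Complex.real_smul, Finset.prod_mul_distrib, Finset.prod_const]
    refine Finset.sum_congr rfl fun S _ => ?_
    rw [← Finset.prod_mul_prod_compl S fun i => S.piecewise (fun _ => X) (fun _ => Z) i (x i) (y i),
      Finset.prod_congr (f := fun i => S.piecewise (fun _ => X) (fun _ => Z) i (x i) (y i))
        (g := fun i => X (x i) (y i)) rfl fun i (hi : i ∈ S) => by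
          rw [Finset.piecewise_eq_of_mem _ _ _ hi],
      Finset.prod_congr (f := fun i => S.piecewise (fun _ => X) (fun _ => Z) i (x i) (y i))
        (g := fun i => Z (x i) (y i)) (s₁ := Sᶜ) rfl fun i hi => by
          rw [Finset.piecewise_eq_of_notMem _ _ _ (Finset.mem_compl.1 hi)]]
    push_cast
    ring
  have e1 := e 1
  rw [one_smul] at e1
  rw [e1, e c, ← Finset.sum_sub_distrib]
  refine posSemidef_sum _ fun S _ => ?_
  rw [← sub_smul]
  refine psd_rsmul (tpF_psd fun i => ?_) ?_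
  · by_cases h : i ∈ S <;> simp [Finset.piecewise, h, hX, hZ]
  · have := (le_abs_self _).trans ((abs_pow c Sᶜ.card).le.trans (pow_le_one₀ (abs_nonneg _) hc))
    simpa using this

theorem tp_mono {X Y : Matrix ι ι ℂ} (hX : X.PosSemidef) (h : (Y - X).PosSemidef) :
    (tp n Y - tp n X).PosSemidef := by
  simpa using tp_sub_psd (n := n) hX h (c := 0) (by simp)

/-- The real quadratic form of a matrix. -/
noncomputable def q (M : Matrix ι ι ℂ) (v : ι → ℂ) : ℝ := (star v ⬝ᵥ M *ᵥ v).re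

/-- Squared Euclidean norm. -/
noncomputable def nsq (v : ι → ℂ) : ℝ := ∑ i, ‖v i‖ ^ 2

theorem nsq_nonneg (v : ι → ℂ) : 0 ≤ nsq v := Finset.sum_nonneg fun _ _ => sq_nonneg _

theorem dot_self (v : ι → ℂ) : star v ⬝ᵥ v = nsq v := by
  simp only [dotProduct, nsq, Pi.star_apply, RCLike.star_def, Complex.conj_mul']
  push_cast
  rfl

theorem q_add (M N : Matrix ι ι ℂ) (v : ι → ℂ) : q (M + N) v = q M v + q N v := by
  simp [q, add_mulVec]

theorem q_sub (M N : Matrix ι ι ℂ) (v : ι → ℂ) : q (M - N) v = q M v - q N v := by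
  simp [q, sub_mulVec]

theorem q_neg (M : Matrix ι ι ℂ) (v : ι → ℂ) : q (-M) v = -q M v := by simp [q, neg_mulVec]

theorem q_zero (v : ι → ℂ) : q 0 v = 0 := by simp [q]

theorem q_rsmul (c : ℝ) (M : Matrix ι ι ℂ) (v : ι → ℂ) : q (c • M) v = c * q M v := by
  simp [q, smul_mulVec]

theorem q_one [DecidableEq ι] (v : ι → ℂ) : q 1 v = nsq v := by simp [q, dot_self]

theorem q_nonneg {M : Matrix ι ι ℂ} (h : M.PosSemidef) (v : ι → ℂ) : 0 ≤ q M v :=
  h.re_dotProduct_nonneg v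

theorem q_le {M N : Matrix ι ι ℂ} (h : (N - M).PosSemidef) (v : ι → ℂ) : q M v ≤ q N v := by
  have := q_nonneg h v
  rw [q_sub] at this
  linarith

theorem psd_of_q {M : Matrix ι ι ℂ} (h : M.IsHermitian) (hq : ∀ v, 0 ≤ q M v) : M.PosSemidef :=
  PosSemidef.of_dotProduct_mulVec_nonneg h fun v =>
    Complex.nonneg_iff.2 ⟨hq v, (h.im_star_dotProduct_mulVec_self v).symm⟩

theorem q_ct_mul {ι' : Type*} [Fintype ι'] (B : Matrix ι' ι ℂ) (v : ι → ℂ) :
    q (Bᴴ * B) v = nsq (B *ᵥ v) := by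
  rw [q, ← mulVec_mulVec, dotProduct_mulVec, ← star_mulVec, dot_self, Complex.ofReal_re]

theorem cs (a b : ι → ℂ) : ‖star a ⬝ᵥ b‖ ^ 2 ≤ nsq a * nsq b := by
  refine le_trans ?_ (Finset.sum_mul_sq_le_sq_mul_sq Finset.univ (fun i => ‖a i‖) fun i => ‖b i‖)
  gcongr
  exact (norm_sum_le _ _).trans (le_of_eq (by simp))

/-- Sum of the moduli of the entries. -/
noncomputable def N1 (M : Matrix ι ι ℂ) : ℝ := ∑ i, ∑ j, ‖M i j‖

theorem N1_nonneg (M : Matrix ι ι ℂ) : 0 ≤ N1 M := by unfold N1; positivity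

theorem continuous_N1 : Continuous (N1 : Matrix ι ι ℂ → ℝ) := by unfold N1; fun_prop

theorem q_le_N1 (M : Matrix ι ι ℂ) (v : ι → ℂ) : q M v ≤ N1 M * nsq v := by
  refine (Complex.re_le_norm _).trans ?_
  simp only [dotProduct, mulVec, Finset.mul_sum, N1, Finset.sum_mul]
  refine (norm_sum_le _ _).trans (Finset.sum_le_sum fun i _ =>
    (norm_sum_le _ _).trans (Finset.sum_le_sum fun j _ => ?_))
  have h : ∀ i, ‖v i‖ ^ 2 ≤ nsq v := fun i =>
    Finset.single_le_sum (f := fun i => ‖v i‖ ^ 2) (fun _ _ => sq_nonneg _) (Finset.mem_univ i)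
  have h2 : ‖v i‖ * ‖v j‖ ≤ nsq v := by nlinarith [h i, h j, sq_nonneg (‖v i‖ - ‖v j‖)]
  calc _ = ‖M i j‖ * (‖v i‖ * ‖v j‖) := by simp; ring
    _ ≤ _ := by gcongr

theorem tr_nonneg {M N : Matrix ι ι ℂ} (hM : M.PosSemidef) (hN : N.PosSemidef) :
    0 ≤ (M * N).trace.re := by
  obtain ⟨B, rfl⟩ := exists_ct hN
  rw [← Matrix.mul_assoc, trace_mul_cycle]
  exact (Complex.nonneg_iff.1 (hM.mul_mul_conjTranspose_same B).trace_nonneg).1

theorem tr_mono {G M N : Matrix ι ι ℂ} (hG : G.PosSemidef) (h : (N - M).PosSemidef) :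
    (G * M).trace.re ≤ (G * N).trace.re := by
  have := tr_nonneg hG h
  rw [Matrix.mul_sub, trace_sub, Complex.sub_re] at this
  linarith

theorem tr_vecMulVec (M : Matrix ι ι ℂ) (v : ι → ℂ) :
    (M * vecMulVec v (star v)).trace.re = q M v := by
  rw [mul_vecMulVec, trace_vecMulVec, q, dotProduct_comm]

end Pool.Agent.MP_47bb2a_mp.H97
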